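import Mathlib

/-!
# A discrete Prékopa–Leindler inequality

In an abelian group in which all nontrivial elements have order at least `p` the sumset of two
nonempty sets has at least `min (p, |X| + |Y| - 1)` elements. We integrate this over level sets.
-/

set_option autoImplicit false

namespace Pool.Agent.H87.FS

open Finset Real
open scoped Pointwise BigOperators

theorem int_ind (a : ℝ) (h0 : 0 ≤ a) :
    ∫ l in (0 : ℝ)..1, (if l ≤ a then (1 : ℝ) else 0) = min a 1 := by
  have hset : (fun l : ℝ => if l ≤ a then (1 : ℝ) else 0) =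
      Set.indicator (Set.Iic a) (fun _ => (1 : ℝ)) := by
    funext l
    simp [Set.indicator]
  rw [hset, intervalIntegral.integral_of_le zero_le_one,
    MeasureTheory.setIntegral_indicator measurableSet_Iic]
  have hs : Set.Ioc (0 : ℝ) 1 ∩ Set.Iic a = Set.Ioc 0 (min a 1) := by
    ext l
    simp only [Set.mem_inter_iff, Set.mem_Ioc, Set.mem_Iic, le_min_iff]
    tauto
  rw [hs]
  simp [h0]

theorem int_ind_integrable (a : ℝ) :
    IntervalIntegrable (fun l : ℝ => if l ≤ a then (1 : ℝ) else 0) MeasureTheory.volume 0 1 := by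
  have hset : (fun l : ℝ => if l ≤ a then (1 : ℝ) else 0) =
      Set.indicator (Set.Iic a) (fun _ => (1 : ℝ)) := by
    funext l
    simp [Set.indicator]
  rw [hset, intervalIntegrable_iff_integrableOn_Ioc_of_le zero_le_one]
  exact (MeasureTheory.integrableOn_const (by simp)).indicator measurableSet_Iic

/-- The layer cake formula for a finite sum. -/
theorem int_card {ι : Type*} (S : Finset ι) (u : ι → ℝ) (h0 : ∀ i ∈ S, 0 ≤ u i) :
    ∫ l in (0 : ℝ)..1, ((S.filter fun i => l ≤ u i).card : ℝ) = ∑ i ∈ S, min (u i) 1 := by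
  have h1 : (fun l : ℝ => ((S.filter fun i => l ≤ u i).card : ℝ)) =
      fun l => ∑ i ∈ S, (if l ≤ u i then (1 : ℝ) else 0) := by
    funext l
    rw [Finset.card_filter]
    push_cast
    rfl
  rw [h1, intervalIntegral.integral_finsetSum (fun i _ => int_ind_integrable (u i))]
  exact Finset.sum_congr rfl fun i hi => int_ind (u i) (h0 i hi)

theorem int_card_integrable {ι : Type*} (S : Finset ι) (u : ι → ℝ) :
    IntervalIntegrable (fun l : ℝ => ((S.filter fun i => l ≤ u i).card : ℝ))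
      MeasureTheory.volume 0 1 := by
  have h1 : (fun l : ℝ => ((S.filter fun i => l ≤ u i).card : ℝ)) =
      fun l => ∑ i ∈ S, (if l ≤ u i then (1 : ℝ) else 0) := by
    funext l
    rw [Finset.card_filter]
    push_cast
    rfl
  rw [h1]
  have := IntervalIntegrable.sum (μ := MeasureTheory.volume) (a := 0) (b := 1) S
    (f := fun i l => if l ≤ u i then (1 : ℝ) else 0) (fun i _ => int_ind_integrable (u i))
  have h2 : (fun l : ℝ => ∑ i ∈ S, (if l ≤ u i then (1 : ℝ) else 0)) =
      ∑ i ∈ S, fun l => if l ≤ u i then (1 : ℝ) else 0 := by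
    funext l
    simp [Finset.sum_apply]
  rw [h2]
  exact this

/-- Cauchy–Davenport in the form used here. -/
theorem cd {G : Type*} [AddCommGroup G] [DecidableEq G] (p : ℕ)
    (hp : (p : ℕ∞) ≤ AddMonoid.minOrder G) (X Y : Finset G) (hX : X.Nonempty) (hY : Y.Nonempty)
    (hXY : X.card + Y.card ≤ p) : X.card + Y.card ≤ (X + Y).card + 1 := by
  have h := cauchy_davenport_minOrder_add hX hY
  have hx := hX.card_pos
  have hy := hY.card_pos
  rcases le_total (AddMonoid.minOrder G) ((X.card + Y.card - 1 : ℕ) : ℕ∞) with h1 | h1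
  · have h2 : (p : ℕ∞) ≤ ((X.card + Y.card - 1 : ℕ) : ℕ∞) := hp.trans h1
    have h3 : p ≤ X.card + Y.card - 1 := by exact_mod_cast h2
    omega
  · rw [min_eq_right h1] at h
    have h3 : X.card + Y.card - 1 ≤ (X + Y).card := by exact_mod_cast h
    omega

/-- A discrete Prékopa–Leindler inequality, normalised. -/
theorem pl_norm {G : Type*} [AddCommGroup G] [Fintype G] [DecidableEq G] (p : ℕ)
    (hp : (p : ℕ∞) ≤ AddMonoid.minOrder G) (X Y : Finset G) (u v w : G → ℝ)
    (hXY : X.card + Y.card ≤ p) (x₀ y₀ : G) (hx₀ : x₀ ∈ X) (hy₀ : y₀ ∈ Y)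
    (hu0 : ∀ x ∈ X, 0 ≤ u x) (hu1 : ∀ x ∈ X, u x ≤ 1) (hux : u x₀ = 1)
    (hv0 : ∀ y ∈ Y, 0 ≤ v y) (hv1 : ∀ y ∈ Y, v y ≤ 1) (hvy : v y₀ = 1)
    (hw0 : ∀ z, 0 ≤ w z) (hw : ∀ x ∈ X, ∀ y ∈ Y, √(u x * v y) ≤ w (x + y)) :
    ∑ x ∈ X, u x + ∑ y ∈ Y, v y - 1 ≤ ∑ z, w z := by
  have hI : ∫ l in (0 : ℝ)..1, (((X.filter fun i => l ≤ u i).card : ℝ) +
      ((Y.filter fun i => l ≤ v i).card : ℝ) - 1) ≤
      ∫ l in (0 : ℝ)..1, (((Finset.univ : Finset G).filter fun i => l ≤ w i).card : ℝ) := by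
    apply intervalIntegral.integral_mono_on_of_le_Ioo zero_le_one
    · exact ((int_card_integrable X u).add (int_card_integrable Y v)).sub
        intervalIntegrable_const
    · exact int_card_integrable _ w
    · intro l hl
      have hl0 : 0 < l := hl.1
      have hl1 : l < 1 := hl.2
      set X' := X.filter fun i => l ≤ u i
      set Y' := Y.filter fun i => l ≤ v i
      have hX' : X'.Nonempty := ⟨x₀, by simp [X', hx₀, hux, hl1.le]⟩
      have hY' : Y'.Nonempty := ⟨y₀, by simp [Y', hy₀, hvy, hl1.le]⟩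
      have hcd := cd p hp X' Y' hX' hY' (by
        have h1 : X'.card ≤ X.card := Finset.card_filter_le _ _
        have h2 : Y'.card ≤ Y.card := Finset.card_filter_le _ _
        omega)
      have hsub : X' + Y' ⊆ (Finset.univ : Finset G).filter fun i => l ≤ w i := by
        intro z hz
        obtain ⟨x, hx, y, hy, rfl⟩ := Finset.mem_add.1 hz
        simp only [X', Y', Finset.mem_filter] at hx hy
        simp only [Finset.mem_filter, Finset.mem_univ, true_and]
        refine le_trans ?_ (hw x hx.1 y hy.1)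
        apply Real.le_sqrt_of_sq_le
        nlinarith [hx.2, hy.2]
      have hc := Finset.card_le_card hsub
      have h3 : X'.card + Y'.card ≤
          ((Finset.univ : Finset G).filter fun i => l ≤ w i).card + 1 := by omega
      have h4 : (X'.card : ℝ) + Y'.card ≤
          (((Finset.univ : Finset G).filter fun i => l ≤ w i).card : ℝ) + 1 := by exact_mod_cast h3
      linarith
  rw [intervalIntegral.integral_sub ((int_card_integrable X u).add (int_card_integrable Y v))
    intervalIntegrable_const, intervalIntegral.integral_add (int_card_integrable X u)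
    (int_card_integrable Y v), int_card X u hu0, int_card Y v hv0,
    int_card Finset.univ w (fun i _ => hw0 i)] at hI
  simp only [intervalIntegral.integral_const, sub_zero, smul_eq_mul, mul_one] at hI
  have e1 : ∑ x ∈ X, min (u x) 1 = ∑ x ∈ X, u x :=
    Finset.sum_congr rfl fun x hx => min_eq_left (hu1 x hx)
  have e2 : ∑ x ∈ Y, min (v x) 1 = ∑ x ∈ Y, v x :=
    Finset.sum_congr rfl fun x hx => min_eq_left (hv1 x hx)
  have e3 : ∑ z, min (w z) 1 ≤ ∑ z, w z := Finset.sum_le_sum fun z _ => min_le_left _ _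
  rw [e1, e2] at hI
  linarith

/-- A discrete Prékopa–Leindler inequality. -/
theorem pl {G : Type*} [AddCommGroup G] [Fintype G] [DecidableEq G] (p : ℕ)
    (hp : (p : ℕ∞) ≤ AddMonoid.minOrder G) (X Y : Finset G) (f g h : G → ℝ)
    (hXY : X.card + Y.card ≤ p) (x₀ y₀ : G) (hx₀ : x₀ ∈ X) (hy₀ : y₀ ∈ Y)
    (hf0 : ∀ x ∈ X, 0 ≤ f x) (hf1 : ∀ x ∈ X, f x ≤ f x₀) (hfx : 0 < f x₀)
    (hg0 : ∀ y ∈ Y, 0 ≤ g y) (hg1 : ∀ y ∈ Y, g y ≤ g y₀) (hgy : 0 < g y₀)
    (hh0 : ∀ z, 0 ≤ h z) (hh : ∀ x ∈ X, ∀ y ∈ Y, f x * g y ≤ h (x + y)) :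
    f x₀ * g y₀ * (∑ x ∈ X, (f x / f x₀) ^ 2 + ∑ y ∈ Y, (g y / g y₀) ^ 2 - 1) ≤ ∑ z, h z := by
  have hpos : 0 < f x₀ * g y₀ := mul_pos hfx hgy
  have key := pl_norm p hp X Y (fun x => (f x / f x₀) ^ 2) (fun y => (g y / g y₀) ^ 2)
    (fun z => h z / (f x₀ * g y₀)) hXY x₀ y₀ hx₀ hy₀ (fun x _ => sq_nonneg _)
    (fun x hx => by
      have h1 : f x / f x₀ ≤ 1 := (div_le_one hfx).2 (hf1 x hx)
      have h0 : 0 ≤ f x / f x₀ := div_nonneg (hf0 x hx) hfx.le
      exact pow_le_one₀ h0 h1)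
    (by simp [hfx.ne'])
    (fun x _ => sq_nonneg _)
    (fun x hx => by
      have h1 : g x / g y₀ ≤ 1 := (div_le_one hgy).2 (hg1 x hx)
      have h0 : 0 ≤ g x / g y₀ := div_nonneg (hg0 x hx) hgy.le
      exact pow_le_one₀ h0 h1)
    (by simp [hgy.ne'])
    (fun z => div_nonneg (hh0 z) hpos.le)
    (fun x hx y hy => by
      have h0 : 0 ≤ f x / f x₀ * (g y / g y₀) :=
        mul_nonneg (div_nonneg (hf0 x hx) hfx.le) (div_nonneg (hg0 y hy) hgy.le)
      rw [← mul_pow, Real.sqrt_sq h0, div_mul_div_comm]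
      exact div_le_div_of_nonneg_right (hh x hx y hy) hpos.le)
  rw [← Finset.sum_div, le_div_iff₀ hpos] at key
  linarith

end Pool.Agent.H87.FS
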