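import Mathlib

/-!
# Numerical inequalities for the step at a large popular prime
-/

set_option autoImplicit false

namespace Pool.Agent.H87.FS

theorem num (ρ a c D G t : ℝ) (hρ0 : 0 < ρ) (hρ1 : ρ ≤ 1) (ht0 : 0 ≤ t) (ht1 : t ≤ 1 / 20)
    (ha : 0 < a) (hc0 : 0 < c) (hc1 : c ≤ 1) (hD : 3 / 4 * (31 / 32) * ρ ≤ D)
    (hG : 1 - ρ / 32 ≤ G) (ha2 : 1 - (1 + 2 * t) * ρ ≤ a ^ 2) :
    a * c < D * c ^ 2 + G * a ^ 2 := by
  have hG0 : 0 < G := by linarith
  have hD0 : 0 < D := by nlinarith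
  have ha3 : 1 - 11 / 10 * ρ ≤ a ^ 2 := by nlinarith
  rcases le_or_gt (G * a ^ 2) D with h | h
  · -- `4 D G > 1`
    have h4 : 1 < 4 * (D * G) := by
      rcases le_or_gt (1 / 2) ρ with hr | hr
      · have h1 : (363 / 1000 : ℝ) ≤ D := by nlinarith
        have h2 : (31 / 32 : ℝ) ≤ G := by linarith
        nlinarith
      · have h1 : (63 / 64 : ℝ) ≤ G := by linarith
        have h2 : (45 / 100 : ℝ) ≤ a ^ 2 := by linarith
        have h3 : (44 / 100 : ℝ) ≤ D := by nlinarith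
        nlinarith
    have hac : 0 < a * c := mul_pos ha hc0
    have h5 : 4 * (D * G) * (a * c) ^ 2 ≤ (D * c ^ 2 + G * a ^ 2) ^ 2 := by
      nlinarith [sq_nonneg (D * c ^ 2 - G * a ^ 2)]
    have h6 : (a * c) ^ 2 < (D * c ^ 2 + G * a ^ 2) ^ 2 := by
      nlinarith [pow_pos hac 2]
    exact lt_of_pow_lt_pow_left₀ 2 (by positivity) h6
  · have h1 : a < D + G * a ^ 2 := by
      have h2 : (1 / 2 - ρ / 32) * (1 - 11 / 10 * ρ) ≤ (1 / 2 - ρ / 32) * a ^ 2 :=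
        mul_le_mul_of_nonneg_left ha3 (by linarith)
      have h3 : (1 / 2 - ρ / 32) * a ^ 2 ≤ (G - 1 / 2) * a ^ 2 :=
        mul_le_mul_of_nonneg_right (by linarith) (sq_nonneg a)
      nlinarith [sq_nonneg (a - 1)]
    have h2 : c * (D + G * a ^ 2) ≤ D * c ^ 2 + G * a ^ 2 := by
      have : 0 ≤ (1 - c) * (G * a ^ 2 - D * c) := by
        apply mul_nonneg (by linarith)
        nlinarith
      nlinarith
    nlinarith

end Pool.Agent.H87.FS
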