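import Mathlib
import Pool.Agent.H87.FS.Layer
import Pool.Agent.H87.FS.Num

/-!
# The analytic core of the step at a large popular prime
-/

set_option autoImplicit false

namespace Pool.Agent.H87.FS

open Finset Real
open scoped Pointwise BigOperators

theorem eta_rpow (L t : ℝ) (hL : Real.exp 9 ≤ L) (ht0 : 0 < t) (ht : t * (90 * Real.log L) ≤ 1) :
    3 / 4 ≤ (1 / (2 ^ 28 * L ^ 8)) ^ (2 * t) := by
  have hLpos : 0 < L := (Real.exp_pos 9).trans_le hL
  have hlog : 9 ≤ Real.log L := by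
    rw [Real.le_log_iff_exp_le hLpos]
    exact hL
  have hη : 0 < 1 / (2 ^ 28 * L ^ 8) := by positivity
  rw [Real.rpow_def_of_pos hη]
  have h1 : Real.log (1 / (2 ^ 28 * L ^ 8)) = -(28 * Real.log 2 + 8 * Real.log L) := by
    rw [one_div, Real.log_inv, Real.log_mul (by positivity) (by positivity), Real.log_pow,
      Real.log_pow]
    norm_num
  rw [h1]
  have h2 : Real.log 2 < 0.6931471808 := Real.log_two_lt_d9
  have h3 : (28 * Real.log 2 + 8 * Real.log L) ≤ 10.16 * Real.log L := by nlinarith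
  have h4 : -(28 * Real.log 2 + 8 * Real.log L) * (2 * t) ≥ -(1 / 4) := by nlinarith
  have h5 := Real.add_one_le_exp (-(28 * Real.log 2 + 8 * Real.log L) * (2 * t))
  linarith

theorem core {G : Type*} [AddCommGroup G] [Fintype G] [DecidableEq G] (p : ℕ)
    (hp : (p : ℕ∞) ≤ AddMonoid.minOrder G) (L t : ℝ) (hL : Real.exp 9 ≤ L) (ht0 : 0 < t)
    (ht : t * (90 * Real.log L) ≤ 1) (hpL : 2 ^ 29 * L ^ 8 ≤ p) (b q σ : G → ℝ)
    (hb0 : ∀ x, 0 ≤ b x) (hq0 : ∀ x, 0 ≤ q x) (hσ0 : ∀ x, 0 ≤ σ x)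
    (hb1 : ∑ x, b x = 1) (hq1 : ∑ x, q x = 1) (hσ1 : ∑ x, σ x = 1)
    (hbm : ∀ x, b x ≤ 1 - 1 / (2 * L)) (hq : ∑ y, √(q y) ≤ 2 * L)
    (h : ∀ x y, b x ^ (1 / 2 + t) * √(q y) ≤ σ (x + y)) : False := by
  classical
  have hLpos : 0 < L := (Real.exp_pos 9).trans_le hL
  have hL1 : 1 ≤ L := by
    have := Real.add_one_le_exp (9 : ℝ)
    linarith
  have hlog : 9 ≤ Real.log L := by
    rw [Real.le_log_iff_exp_le hLpos]
    exact hL
  have ht20 : t ≤ 1 / 20 := by nlinarith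
  set s : ℝ := 1 / 2 + t with hs
  have hs0 : 0 < s := by linarith
  -- the largest class of `q`
  have hne : (Finset.univ : Finset G).Nonempty := ⟨0, Finset.mem_univ _⟩
  obtain ⟨y₀, -, hy₀⟩ := Finset.exists_max_image Finset.univ q hne
  obtain ⟨x₀, -, hx₀⟩ := Finset.exists_max_image Finset.univ b hne
  have hy₀' : ∀ y, q y ≤ q y₀ := fun y => hy₀ y (Finset.mem_univ _)
  have hx₀' : ∀ y, b y ≤ b x₀ := fun y => hx₀ y (Finset.mem_univ _)
  have hsq : 1 ≤ 2 * L * √(q y₀) := by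
    have h1 : ∑ x, q x ≤ ∑ x, √(q x) * √(q y₀) := by
      apply Finset.sum_le_sum
      intro x _
      have e : √(q x) * √(q x) = q x := Real.mul_self_sqrt (hq0 x)
      calc q x = √(q x) * √(q x) := e.symm
        _ ≤ √(q x) * √(q y₀) :=
          mul_le_mul_of_nonneg_left (Real.sqrt_le_sqrt (hy₀' x)) (Real.sqrt_nonneg _)
    rw [hq1, ← Finset.sum_mul] at h1
    exact h1.trans (mul_le_mul_of_nonneg_right hq (Real.sqrt_nonneg _))
  have hsq0 : 0 < √(q y₀) := by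
    rcases lt_or_eq_of_le (Real.sqrt_nonneg (q y₀)) with h1 | h1
    · exact h1
    · rw [← h1] at hsq
      linarith
  -- sum of `b ^ s`
  have hbs : ∑ x, b x ^ s ≤ 2 * L := by
    have h1 : ∑ x, b x ^ s * √(q y₀) ≤ 1 := by
      calc ∑ x, b x ^ s * √(q y₀) ≤ ∑ x, σ (x + y₀) := Finset.sum_le_sum fun x _ => h x y₀
        _ = ∑ x, σ x := Equiv.sum_comp (Equiv.addRight y₀) σ
        _ = 1 := hσ1
    rw [← Finset.sum_mul] at h1
    by_contra hcon
    push Not at hcon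
    have : 2 * L * √(q y₀) < (∑ x, b x ^ s) * √(q y₀) := mul_lt_mul_of_pos_right hcon hsq0
    linarith
  set η : ℝ := 1 / (2 ^ 28 * L ^ 8) with hη
  have hη0 : 0 < η := by positivity
  have hη1 : η ≤ 1 := by
    rw [hη, div_le_one (by positivity)]
    have : (1 : ℝ) ≤ L ^ 8 := one_le_pow₀ hL1
    nlinarith
  have hη4 : η ^ (1 / 4 : ℝ) = 1 / (128 * L ^ 2) := by
    have e : η = (1 / (128 * L ^ 2)) ^ (4 : ℕ) := by
      rw [hη]
      ring_nf
    rw [e, ← Real.rpow_natCast, ← Real.rpow_mul (by positivity)]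
    norm_num
  have hη2 : √η ≤ 1 / (128 * L ^ 2) := by
    rw [← hη4, Real.sqrt_eq_rpow]
    exact Real.rpow_le_rpow_of_exponent_ge hη0 hη1 (by norm_num)
  set X : Finset G := Finset.univ.filter fun x => η ≤ b x with hX
  set Y : Finset G := Finset.univ.filter fun y => η ≤ q y with hY
  -- tails
  have htailb : ∑ x ∈ Xᶜ, b x ≤ 1 / (64 * L) := by
    have h1 : ∑ x ∈ Xᶜ, b x ≤ ∑ x ∈ Xᶜ, b x ^ s * (1 / (128 * L ^ 2)) := by
      apply Finset.sum_le_sum
      intro x hx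
      have hx' : b x < η := by
        rw [hX, Finset.mem_compl, Finset.mem_filter] at hx
        push Not at hx
        exact hx (Finset.mem_univ _)
      rcases eq_or_lt_of_le (hb0 x) with h0 | h0
      · rw [← h0, Real.zero_rpow hs0.ne']
        simp
      · have e : b x = b x ^ s * b x ^ (1 - s) := by
          rw [← Real.rpow_add h0]
          simp
        calc b x = b x ^ s * b x ^ (1 - s) := e
          _ ≤ b x ^ s * (1 / (128 * L ^ 2)) := by
            apply mul_le_mul_of_nonneg_left _ (Real.rpow_nonneg (hb0 x) _)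
            calc b x ^ (1 - s) ≤ η ^ (1 - s) :=
                  Real.rpow_le_rpow (hb0 x) hx'.le (by linarith)
              _ ≤ η ^ (1 / 4 : ℝ) :=
                  Real.rpow_le_rpow_of_exponent_ge hη0 hη1 (by linarith)
              _ = 1 / (128 * L ^ 2) := hη4
    have h2 : ∑ x ∈ Xᶜ, b x ^ s ≤ 2 * L :=
      (Finset.sum_le_sum_of_subset_of_nonneg (Finset.subset_univ _)
        fun x _ _ => Real.rpow_nonneg (hb0 x) _).trans hbs
    rw [← Finset.sum_mul] at h1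
    calc ∑ x ∈ Xᶜ, b x ≤ (∑ x ∈ Xᶜ, b x ^ s) * (1 / (128 * L ^ 2)) := h1
      _ ≤ 2 * L * (1 / (128 * L ^ 2)) := mul_le_mul_of_nonneg_right h2 (by positivity)
      _ = 1 / (64 * L) := by field_simp; norm_num
  have htailq : ∑ x ∈ Yᶜ, q x ≤ 1 / (64 * L) := by
    have h1 : ∑ x ∈ Yᶜ, q x ≤ ∑ x ∈ Yᶜ, √(q x) * (1 / (128 * L ^ 2)) := by
      apply Finset.sum_le_sum
      intro x hx
      have hx' : q x < η := by
        rw [hY, Finset.mem_compl, Finset.mem_filter] at hx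
        push Not at hx
        exact hx (Finset.mem_univ _)
      calc q x = √(q x) * √(q x) := (Real.mul_self_sqrt (hq0 x)).symm
        _ ≤ √(q x) * (1 / (128 * L ^ 2)) :=
          mul_le_mul_of_nonneg_left ((Real.sqrt_le_sqrt hx'.le).trans hη2) (Real.sqrt_nonneg _)
    have h2 : ∑ x ∈ Yᶜ, √(q x) ≤ 2 * L :=
      (Finset.sum_le_sum_of_subset_of_nonneg (Finset.subset_univ _)
        fun x _ _ => Real.sqrt_nonneg _).trans hq
    rw [← Finset.sum_mul] at h1
    calc ∑ x ∈ Yᶜ, q x ≤ (∑ x ∈ Yᶜ, √(q x)) * (1 / (128 * L ^ 2)) := h1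
      _ ≤ 2 * L * (1 / (128 * L ^ 2)) := mul_le_mul_of_nonneg_right h2 (by positivity)
      _ = 1 / (64 * L) := by field_simp; norm_num
  have hsumX : ∑ x ∈ X, b x + ∑ x ∈ Xᶜ, b x = 1 := by
    rw [Finset.sum_add_sum_compl]
    exact hb1
  have hsumY : ∑ x ∈ Y, q x + ∑ x ∈ Yᶜ, q x = 1 := by
    rw [Finset.sum_add_sum_compl]
    exact hq1
  have hsmall : 1 / (64 * L) < 1 := by
    rw [div_lt_one (by positivity)]
    linarith
  have hXne : X.Nonempty := by
    by_contra hcon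
    rw [Finset.not_nonempty_iff_eq_empty] at hcon
    rw [hcon] at hsumX htailb
    simp only [Finset.sum_empty, zero_add] at hsumX
    linarith
  have hYne : Y.Nonempty := by
    by_contra hcon
    rw [Finset.not_nonempty_iff_eq_empty] at hcon
    rw [hcon] at hsumY htailq
    simp only [Finset.sum_empty, zero_add] at hsumY
    linarith
  have hx₀X : x₀ ∈ X := by
    obtain ⟨x, hx⟩ := hXne
    rw [hX, Finset.mem_filter] at hx ⊢
    exact ⟨Finset.mem_univ _, hx.2.trans (hx₀' x)⟩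
  have hy₀Y : y₀ ∈ Y := by
    obtain ⟨x, hx⟩ := hYne
    rw [hY, Finset.mem_filter] at hx ⊢
    exact ⟨Finset.mem_univ _, hx.2.trans (hy₀' x)⟩
  have hbx₀ : 0 < b x₀ := by
    rw [hX, Finset.mem_filter] at hx₀X
    exact hη0.trans_le hx₀X.2
  have hqy₀ : 0 < q y₀ := by
    rw [hY, Finset.mem_filter] at hy₀Y
    exact hη0.trans_le hy₀Y.2
  -- cardinalities
  have hcX : (X.card : ℝ) ≤ 2 ^ 28 * L ^ 8 := by
    have h1 : (X.card : ℝ) * η ≤ ∑ x ∈ X, b x := by
      rw [← nsmul_eq_mul]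
      apply Finset.card_nsmul_le_sum
      intro x hx
      rw [hX, Finset.mem_filter] at hx
      exact hx.2
    have h2 : ∑ x ∈ X, b x ≤ 1 := by
      have : 0 ≤ ∑ x ∈ Xᶜ, b x := Finset.sum_nonneg fun x _ => hb0 x
      linarith
    have h3 : (X.card : ℝ) * η ≤ 1 := h1.trans h2
    rw [hη, mul_one_div, div_le_one (by positivity)] at h3
    exact h3
  have hcY : (Y.card : ℝ) ≤ 2 ^ 28 * L ^ 8 := by
    have h1 : (Y.card : ℝ) * η ≤ ∑ x ∈ Y, q x := by
      rw [← nsmul_eq_mul]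
      apply Finset.card_nsmul_le_sum
      intro x hx
      rw [hY, Finset.mem_filter] at hx
      exact hx.2
    have h2 : ∑ x ∈ Y, q x ≤ 1 := by
      have : 0 ≤ ∑ x ∈ Yᶜ, q x := Finset.sum_nonneg fun x _ => hq0 x
      linarith
    have h3 : (Y.card : ℝ) * η ≤ 1 := h1.trans h2
    rw [hη, mul_one_div, div_le_one (by positivity)] at h3
    exact h3
  have hXY : X.card + Y.card ≤ p := by
    have : ((X.card + Y.card : ℕ) : ℝ) ≤ p := by
      push_cast
      linarith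
    exact_mod_cast this
  have key := pl p hp X Y (fun x => b x ^ s) (fun y => √(q y)) σ hXY x₀ y₀ hx₀X hy₀Y
    (fun x _ => Real.rpow_nonneg (hb0 x) _)
    (fun x _ => Real.rpow_le_rpow (hb0 x) (hx₀' x) hs0.le) (Real.rpow_pos_of_pos hbx₀ _)
    (fun x _ => Real.sqrt_nonneg _) (fun x _ => Real.sqrt_le_sqrt (hy₀' x)) hsq0 hσ0
    (fun x _ y _ => h x y)
  rw [hσ1] at key
  simp only [div_pow] at key
  rw [← Finset.sum_div, ← Finset.sum_div] at key
  set a : ℝ := b x₀ ^ s with ha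
  set c : ℝ := √(q y₀) with hc
  have ha0 : 0 < a := Real.rpow_pos_of_pos hbx₀ _
  set G' : ℝ := ∑ y ∈ Y, √(q y) ^ 2 with hG'
  have hG'' : G' = ∑ y ∈ Y, q y := Finset.sum_congr rfl fun y _ => Real.sq_sqrt (hq0 y)
  set F : ℝ := ∑ x ∈ X, (b x ^ s) ^ 2 with hF
  have hfsq : ∀ x, (b x ^ s) ^ 2 = b x ^ (1 + 2 * t) := by
    intro x
    rw [← Real.rpow_natCast, ← Real.rpow_mul (hb0 x)]
    congr 1
    push_cast
    rw [hs]
    ring
  have hηt := eta_rpow L t hL ht0 ht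
  rw [← hη] at hηt
  -- the excess
  have hD : 3 / 4 * (∑ x ∈ X, b x - b x₀) ≤ F - a ^ 2 := by
    have e1 : F = a ^ 2 + ∑ x ∈ X.erase x₀, (b x ^ s) ^ 2 := by
      rw [hF, ← Finset.add_sum_erase X _ hx₀X]
    have e2 : ∑ x ∈ X, b x = b x₀ + ∑ x ∈ X.erase x₀, b x := by
      rw [← Finset.add_sum_erase X _ hx₀X]
    rw [e1, e2]
    have : ∑ x ∈ X.erase x₀, (3 / 4 * b x) ≤ ∑ x ∈ X.erase x₀, (b x ^ s) ^ 2 := by
      apply Finset.sum_le_sum
      intro x hx
      have hxX : η ≤ b x := by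
        have := Finset.mem_of_mem_erase hx
        rw [hX, Finset.mem_filter] at this
        exact this.2
      have hbx : 0 < b x := hη0.trans_le hxX
      rw [hfsq, Real.rpow_add hbx, Real.rpow_one]
      have h1 : η ^ (2 * t) ≤ b x ^ (2 * t) := Real.rpow_le_rpow hη0.le hxX (by linarith)
      nlinarith
    rw [← Finset.mul_sum] at this
    linarith
  set ρ : ℝ := 1 - b x₀ with hρ
  have hρL : 1 / (2 * L) ≤ ρ := by
    have := hbm x₀
    linarith
  have hρ0 : 0 < ρ := lt_of_lt_of_le (by positivity) hρL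
  have hρ1 : ρ ≤ 1 := by linarith
  have h64 : 1 / (64 * L) ≤ ρ / 32 := by
    have : 1 / (64 * L) = 1 / (2 * L) / 32 := by field_simp; norm_num
    rw [this]
    linarith
  have hc1 : c ≤ 1 := by
    rw [hc, Real.sqrt_le_one]
    rw [← hq1]
    exact Finset.single_le_sum (f := q) (fun x _ => hq0 x) (Finset.mem_univ y₀)
  have hD' : 3 / 4 * (31 / 32) * ρ ≤ F - a ^ 2 := by
    have : ∑ x ∈ X, b x - b x₀ ≥ 31 / 32 * ρ := by linarith
    linarith
  have hGG : 1 - ρ / 32 ≤ G' := by linarith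
  have ha2 : 1 - (1 + 2 * t) * ρ ≤ a ^ 2 := by
    rw [ha, hfsq]
    have := one_add_mul_self_le_rpow_one_add (s := -ρ) (by linarith) (p := 1 + 2 * t) (by linarith)
    have e : (1 : ℝ) + -ρ = b x₀ := by rw [hρ]; ring
    rw [e] at this
    linarith
  have hnum := num ρ a c (F - a ^ 2) G' t hρ0 hρ1 ht0.le ht20 ha0 hsq0 hc1 hD' hGG ha2
  have hkey : a * c * (F / a ^ 2 + G' / c ^ 2 - 1) = ((F - a ^ 2) * c ^ 2 + G' * a ^ 2) / (a * c) := by
    field_simp
    ring
  rw [hkey, div_le_one (by positivity)] at key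
  linarith

end Pool.Agent.H87.FS
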