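import Mathlib
import Pool.Agent.H87.FS.Core

/-!
# The step at a large popular prime
-/

set_option autoImplicit false

namespace Pool.Agent.H87.FS

open Finset Real
open scoped Pointwise BigOperators

/-- The potential `|B| ^ s |P| ^ (1/2) / |B + P|`. -/
noncomputable def gam (s : ℝ) (B P : Finset ℤ) : ℝ :=
  (B.card : ℝ) ^ s * √(P.card : ℝ) / ((B + P).card : ℝ)

theorem gam_pos (s : ℝ) (B P : Finset ℤ) (hB : B.Nonempty) (hP : P.Nonempty) : 0 < gam s B P := by
  have h1 : (0 : ℝ) < B.card := by exact_mod_cast hB.card_pos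
  have h2 : (0 : ℝ) < P.card := by exact_mod_cast hP.card_pos
  have h3 : (0 : ℝ) < (B + P).card := by exact_mod_cast (hB.add hP).card_pos
  unfold gam
  positivity

/-- The residue class of the elements of a set. -/
def cls (n : ℕ) (B : Finset ℤ) (x : ZMod n) : Finset ℤ := B.filter fun b => (b : ZMod n) = x

theorem sum_cls (n : ℕ) [NeZero n] (B : Finset ℤ) : ∑ x, (cls n B x).card = B.card := by
  unfold cls
  rw [← Finset.card_eq_sum_card_fiberwise (f := fun b : ℤ => (b : ZMod n)) (t := Finset.univ)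
    (fun _ _ => Finset.mem_coe.2 (Finset.mem_univ _))]

theorem cls_add (n : ℕ) (B P : Finset ℤ) (x y : ZMod n) :
    cls n B x + cls n P y ⊆ cls n (B + P) (x + y) := by
  intro z hz
  obtain ⟨b, hb, c, hc, rfl⟩ := Finset.mem_add.1 hz
  simp only [cls, Finset.mem_filter] at hb hc ⊢
  refine ⟨Finset.add_mem_add hb.1 hc.1, ?_⟩
  push_cast
  rw [hb.2, hc.2]

/-- The exponent of `p` in an integer. -/
noncomputable def va (p : ℕ) (b : ℤ) : ℕ := b.natAbs.factorization p

theorem dvd_iff (p f : ℕ) (hp : p.Prime) (b : ℤ) (hb : b ≠ 0) :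
    ((p ^ f : ℕ) : ℤ) ∣ b ↔ f ≤ va p b := by
  rw [Int.natCast_dvd]
  exact hp.pow_dvd_iff_le_factorization (Int.natAbs_ne_zero.2 hb)

theorem val_iff (p f : ℕ) (hp : p.Prime) (b : ℤ) (hb : b ≠ 0) :
    ((b : ZMod (p ^ f)) = 0) ↔ f ≤ va p b := by
  rw [ZMod.intCast_zmod_eq_zero_iff_dvd]
  exact dvd_iff p f hp b hb

theorem minOrder_pow (p f : ℕ) (hp : p.Prime) (hf : f ≠ 0) :
    (p : ℕ∞) ≤ AddMonoid.minOrder (ZMod (p ^ f)) := by
  rw [ZMod.minOrder (pow_ne_zero _ hp.ne_zero) (by
    intro h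
    have := Nat.one_lt_pow hf hp.one_lt
    omega), hp.pow_minFac hf]

/-- A threshold for the exponent of a popular prime. -/
theorem exists_threshold (L : ℝ) (hL : 1 ≤ L) (p : ℕ) (B : Finset ℤ) (hB : B.Nonempty)
    (hpop : ∀ e : ℕ, (B.card : ℝ) < L * (B.filter fun b => va p b ≠ e).card) :
    ∃ f : ℕ, f ≠ 0 ∧ (B.card : ℝ) ≤ 2 * L * (B.filter fun b => f ≤ va p b).card ∧
      (B.card : ℝ) ≤ 2 * L * (B.filter fun b => ¬ f ≤ va p b).card := by
  classical
  have hBc : (0 : ℝ) < B.card := by exact_mod_cast hB.card_pos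
  have hex : ∃ j : ℕ, 2 * L * ((B.filter fun b => j ≤ va p b).card : ℝ) < B.card := by
    refine ⟨(B.sup fun b => va p b) + 1, ?_⟩
    have : (B.filter fun b => (B.sup fun b => va p b) + 1 ≤ va p b) = ∅ := by
      rw [Finset.filter_eq_empty_iff]
      intro b hb hcon
      have : va p b ≤ B.sup fun b => va p b := Finset.le_sup (f := fun b => va p b) hb
      omega
    rw [this]
    simpa using hBc
  have hspec := Nat.find_spec hex
  have hmin := fun m => Nat.find_min hex (m := m)
  set j := Nat.find hex with hj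
  have hj0 : j ≠ 0 := by
    intro h0
    rw [h0] at hspec
    simp only [Nat.zero_le, Finset.filter_true] at hspec
    nlinarith
  obtain ⟨f, hf⟩ := Nat.exists_eq_succ_of_ne_zero hj0
  have hf1 := hmin f (by omega)
  push Not at hf1
  rw [hf] at hspec
  have hdis : (B.filter fun b => va p b ≠ f) =
      (B.filter fun b => ¬ f ≤ va p b) ∪ (B.filter fun b => f.succ ≤ va p b) := by
    ext b
    simp only [Finset.mem_filter, Finset.mem_union]
    constructor
    · rintro ⟨hb, h⟩
      rcases le_or_gt f (va p b) with h1 | h1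
      · right
        exact ⟨hb, by omega⟩
      · left
        exact ⟨hb, by omega⟩
    · rintro (⟨hb, h⟩ | ⟨hb, h⟩)
      · exact ⟨hb, by omega⟩
      · exact ⟨hb, by omega⟩
  have hle : ((B.filter fun b => va p b ≠ f).card : ℝ) ≤
      (B.filter fun b => ¬ f ≤ va p b).card + (B.filter fun b => f.succ ≤ va p b).card := by
    rw [hdis]
    exact_mod_cast Finset.card_union_le _ _
  have h2 := hpop f
  have h3 : (B.card : ℝ) ≤ 2 * L * (B.filter fun b => ¬ f ≤ va p b).card := by nlinarith
  refine ⟨f, ?_, hf1, h3⟩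
  intro h0
  rw [h0] at h3
  simp only [Nat.zero_le, not_true, Finset.filter_false, Finset.card_empty, Nat.cast_zero,
    mul_zero] at h3
  linarith

theorem stepA (L t : ℝ) (hL : Real.exp 9 ≤ L) (ht0 : 0 < t) (ht : t * (90 * Real.log L) ≤ 1)
    (p : ℕ) (hp : p.Prime) (hpL : 2 ^ 29 * L ^ 8 ≤ p) (B P : Finset ℤ) (hB : B.Nonempty)
    (hP : P.Nonempty) (h0 : (0 : ℤ) ∉ B)
    (hpop : ∀ e : ℕ, (B.card : ℝ) < L * (B.filter fun b => va p b ≠ e).card) :
    ∃ B' ⊂ B, B'.Nonempty ∧ ∃ P' ⊆ P, P'.Nonempty ∧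
      gam (1 / 2 + t) B P ≤ gam (1 / 2 + t) B' P' := by
  classical
  by_contra hcon
  push Not at hcon
  have hL1 : 1 ≤ L := by
    have := Real.add_one_le_exp (9 : ℝ)
    linarith
  have hL0 : 0 < L := by linarith
  have hBc : (0 : ℝ) < B.card := by exact_mod_cast hB.card_pos
  have hPc : (0 : ℝ) < P.card := by exact_mod_cast hP.card_pos
  have hSc : (0 : ℝ) < (B + P).card := by exact_mod_cast (hB.add hP).card_pos
  set s : ℝ := 1 / 2 + t with hs
  have hs0 : 0 < s := by linarith
  have hlog : 9 ≤ Real.log L := by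
    rw [Real.le_log_iff_exp_le hL0]
    exact hL
  have ht20 : t ≤ 1 / 20 := by nlinarith
  have hs1 : s ≤ 1 := by linarith
  -- the key inequality
  have H : ∀ B' ⊂ B, ∀ P' ⊆ P, ((B'.card : ℝ) / B.card) ^ s * √((P'.card : ℝ) / P.card) ≤
      ((B' + P').card : ℝ) / (B + P).card := by
    intro B' hB' P' hP'
    rcases B'.eq_empty_or_nonempty with rfl | hBn
    · simp [Real.zero_rpow hs0.ne']
    rcases P'.eq_empty_or_nonempty with rfl | hPn
    · simp
    have h1 := hcon B' hB' hBn P' hP' hPn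
    unfold gam at h1
    have hSc' : (0 : ℝ) < (B' + P').card := by exact_mod_cast (hBn.add hPn).card_pos
    rw [div_lt_div_iff₀ hSc' hSc] at h1
    rw [Real.div_rpow (by positivity) (by positivity), Real.sqrt_div (by positivity),
      div_mul_div_comm, div_le_div_iff₀ (by positivity) hSc]
    linarith
  obtain ⟨f, hf0, hf1, hf2⟩ := exists_threshold L hL1 p B hB hpop
  have hne0 : p ^ f ≠ 0 := pow_ne_zero _ hp.ne_zero
  have : NeZero (p ^ f) := ⟨hne0⟩
  have hD : cls (p ^ f) B 0 = B.filter fun b => f ≤ va p b := by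
    unfold cls
    apply Finset.filter_congr
    intro b hb
    exact val_iff p f hp b (fun h => h0 (h ▸ hb))
  have hsplit : ((B.filter fun b => f ≤ va p b).card : ℝ) +
      (B.filter fun b => ¬ f ≤ va p b).card = B.card := by
    exact_mod_cast Finset.card_filter_add_card_filter_not (s := B) (fun b => f ≤ va p b)
  have hb00 : 1 / (2 * L) ≤ ((cls (p ^ f) B 0).card : ℝ) / B.card := by
    rw [hD, div_le_div_iff₀ (by positivity) hBc]
    linarith
  have hcls : ∀ x : ZMod (p ^ f), ((cls (p ^ f) B x).card : ℝ) / B.card ≤ 1 - 1 / (2 * L) := by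
    intro x
    by_cases hx : x = 0
    · rw [hx, hD]
      have : 1 / (2 * L) ≤ ((B.filter fun b => ¬ f ≤ va p b).card : ℝ) / B.card := by
        rw [div_le_div_iff₀ (by positivity) hBc]
        linarith
      have e : ((B.filter fun b => f ≤ va p b).card : ℝ) / B.card +
          ((B.filter fun b => ¬ f ≤ va p b).card : ℝ) / B.card = 1 := by
        rw [← add_div, hsplit, div_self hBc.ne']
      linarith
    · have hsub : cls (p ^ f) B x ⊆ B.filter fun b => ¬ f ≤ va p b := by
        intro b hb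
        simp only [cls, Finset.mem_filter] at hb ⊢
        refine ⟨hb.1, fun hcon' => hx ?_⟩
        rw [← hb.2]
        exact (val_iff p f hp b (fun h => h0 (h ▸ hb.1))).2 hcon'
      have h1 : ((cls (p ^ f) B x).card : ℝ) / B.card ≤
          ((B.filter fun b => ¬ f ≤ va p b).card : ℝ) / B.card := by
        apply div_le_div_of_nonneg_right _ hBc.le
        exact_mod_cast Finset.card_le_card hsub
      have e : ((B.filter fun b => f ≤ va p b).card : ℝ) / B.card +
          ((B.filter fun b => ¬ f ≤ va p b).card : ℝ) / B.card = 1 := by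
        rw [← add_div, hsplit, div_self hBc.ne']
      rw [hD] at hb00
      linarith
  have hss : ∀ x : ZMod (p ^ f), cls (p ^ f) B x ⊂ B := by
    intro x
    rw [Finset.ssubset_iff_subset_ne]
    refine ⟨Finset.filter_subset _ _, fun h => ?_⟩
    have h1 := hcls x
    rw [h, div_self hBc.ne'] at h1
    have : 0 < 1 / (2 * L) := by positivity
    linarith
  have hh : ∀ x y : ZMod (p ^ f), (((cls (p ^ f) B x).card : ℝ) / B.card) ^ s *
      √(((cls (p ^ f) P y).card : ℝ) / P.card) ≤
      ((cls (p ^ f) (B + P) (x + y)).card : ℝ) / (B + P).card := by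
    intro x y
    refine (H _ (hss x) (cls (p ^ f) P y) (Finset.filter_subset _ _)).trans ?_
    apply div_le_div_of_nonneg_right _ hSc.le
    exact_mod_cast Finset.card_le_card (cls_add _ _ _ _ _)
  have hsum : ∀ (Q : Finset ℤ), (0 : ℝ) < Q.card →
      ∑ x : ZMod (p ^ f), ((cls (p ^ f) Q x).card : ℝ) / Q.card = 1 := by
    intro Q hQ
    rw [← Finset.sum_div, ← Nat.cast_sum, sum_cls, div_self hQ.ne']
  refine core p (minOrder_pow p f hp hf0) L t hL ht0 ht hpL
    (fun x => ((cls (p ^ f) B x).card : ℝ) / B.card)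
    (fun x => ((cls (p ^ f) P x).card : ℝ) / P.card)
    (fun x => ((cls (p ^ f) (B + P) x).card : ℝ) / (B + P).card)
    (fun x => by positivity) (fun x => by positivity) (fun x => by positivity)
    (hsum B hBc) (hsum P hPc) (hsum (B + P) hSc) hcls ?_ hh
  -- the sum of the roots
  have h1 : ∑ y : ZMod (p ^ f), (1 / (2 * L)) * √(((cls (p ^ f) P y).card : ℝ) / P.card) ≤ 1 := by
    refine le_trans (Finset.sum_le_sum ?_) (hsum (B + P) hSc).le
    intro y _
    have h2 := hh 0 y
    rw [zero_add] at h2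
    refine le_trans ?_ h2
    apply mul_le_mul_of_nonneg_right _ (Real.sqrt_nonneg _)
    have hb01 : ((cls (p ^ f) B 0).card : ℝ) / B.card ≤ 1 := by
      have := hcls 0
      have h3 : 0 < 1 / (2 * L) := by positivity
      linarith
    have hb0pos : 0 < ((cls (p ^ f) B 0).card : ℝ) / B.card :=
      lt_of_lt_of_le (by positivity) hb00
    calc 1 / (2 * L) ≤ ((cls (p ^ f) B 0).card : ℝ) / B.card := hb00
      _ = (((cls (p ^ f) B 0).card : ℝ) / B.card) ^ (1 : ℝ) := (Real.rpow_one _).symm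
      _ ≤ (((cls (p ^ f) B 0).card : ℝ) / B.card) ^ s :=
        Real.rpow_le_rpow_of_exponent_ge hb0pos hb01 hs1
  rw [← Finset.mul_sum] at h1
  generalize (∑ y : ZMod (p ^ f), √(((cls (p ^ f) P y).card : ℝ) / P.card)) = T at h1 ⊢
  rw [div_mul_eq_mul_div, one_mul, div_le_one (by positivity)] at h1
  exact h1

end Pool.Agent.H87.FS
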