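import Mathlib
import Pool.Agent.H87.FS.StepA

/-!
# One prime: restricting to one exponent costs a factor `3`
-/

set_option autoImplicit false

namespace Pool.Agent.H87.FS

open Finset Real
open scoped Pointwise BigOperators

theorem arith (X a x q m : ℝ) (ha : 0 ≤ a) (hx : 0 ≤ x) (hq : 0 < q) (hm : 0 < m)
    (h1 : a * q ^ 2 / m ≤ X) (h2 : (a + x) * m ≤ X) (h3 : x * q ≤ X) :
    (a + 0.38 * x) * q ≤ X := by
  by_contra hcon
  push Not at hcon
  have h4 : x < a + 0.38 * x := by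
    by_contra h
    push Not at h
    have : (a + 0.38 * x) * q ≤ x * q := mul_le_mul_of_nonneg_right h hq.le
    linarith
  have hX0 : 0 ≤ X := le_trans (mul_nonneg hx hq.le) h3
  have h5 : (a * q ^ 2 / m) * ((a + x) * m) ≤ X * X :=
    mul_le_mul h1 h2 (by positivity) hX0
  have h6 : (a * q ^ 2 / m) * ((a + x) * m) = a * (a + x) * q ^ 2 := by
    field_simp
  rw [h6] at h5
  have h7 : X * X < ((a + 0.38 * x) * q) * ((a + 0.38 * x) * q) :=
    mul_self_lt_mul_self hX0 hcon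
  have h8 : a * (a + x) * q ^ 2 < (a + 0.38 * x) ^ 2 * q ^ 2 := by nlinarith
  have h9 : a * (a + x) < (a + 0.38 * x) ^ 2 := lt_of_mul_lt_mul_right h8 (by positivity)
  nlinarith

theorem subadd (s : ℝ) (hs0 : 0 < s) (hs1 : s ≤ 1) {ι : Type*} (I : Finset ι) (n : ι → ℕ) :
    ((∑ i ∈ I, n i : ℕ) : ℝ) ^ s ≤ ∑ i ∈ I, (n i : ℝ) ^ s := by
  rcases Nat.eq_zero_or_pos (∑ i ∈ I, n i) with h | h
  · rw [h]
    rw [Nat.cast_zero, Real.zero_rpow hs0.ne']
    exact Finset.sum_nonneg fun i _ => Real.rpow_nonneg (Nat.cast_nonneg _) _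
  · have hN : (0 : ℝ) < ((∑ i ∈ I, n i : ℕ) : ℝ) := by exact_mod_cast h
    have h1 : ∀ i ∈ I, ((∑ i ∈ I, n i : ℕ) : ℝ) ^ s * ((n i : ℝ) / ((∑ i ∈ I, n i : ℕ) : ℝ)) ≤
        (n i : ℝ) ^ s := by
      intro i hi
      rcases Nat.eq_zero_or_pos (n i) with h0 | h0
      · rw [h0]
        simp [Real.zero_rpow hs0.ne']
      · have hni : (0 : ℝ) < n i := by exact_mod_cast h0
        have hle : (n i : ℝ) / ((∑ i ∈ I, n i : ℕ) : ℝ) ≤ 1 := by
          rw [div_le_one hN]
          exact_mod_cast Finset.single_le_sum (f := n) (fun _ _ => Nat.zero_le _) hi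
        calc ((∑ i ∈ I, n i : ℕ) : ℝ) ^ s * ((n i : ℝ) / ((∑ i ∈ I, n i : ℕ) : ℝ)) ≤
            ((∑ i ∈ I, n i : ℕ) : ℝ) ^ s * ((n i : ℝ) / ((∑ i ∈ I, n i : ℕ) : ℝ)) ^ s := by
              apply mul_le_mul_of_nonneg_left _ (Real.rpow_nonneg hN.le _)
              calc (n i : ℝ) / ((∑ i ∈ I, n i : ℕ) : ℝ) =
                  ((n i : ℝ) / ((∑ i ∈ I, n i : ℕ) : ℝ)) ^ (1 : ℝ) := (Real.rpow_one _).symm
                _ ≤ _ := Real.rpow_le_rpow_of_exponent_ge (by positivity) hle hs1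
          _ = (n i : ℝ) ^ s := by
              rw [← Real.mul_rpow hN.le (by positivity)]
              congr 1
              field_simp
    calc ((∑ i ∈ I, n i : ℕ) : ℝ) ^ s =
        ∑ i ∈ I, ((∑ i ∈ I, n i : ℕ) : ℝ) ^ s * ((n i : ℝ) / ((∑ i ∈ I, n i : ℕ) : ℝ)) := by
          rw [← Finset.mul_sum, ← Finset.sum_div, ← Nat.cast_sum, div_self hN.ne', mul_one]
      _ ≤ _ := Finset.sum_le_sum h1

theorem tree (s : ℝ) (hs0 : 0 < s) (p : ℕ) (hp : p.Prime) (B P : Finset ℤ) (h0 : (0 : ℤ) ∉ B)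
    (S M : ℝ) (hS : 0 ≤ S) (hM : 0 ≤ M) (N : ℕ)
    (H : ∀ e : ℕ, ∀ P' ⊆ P, 3 * S * ((B.filter fun b => va p b = e).card : ℝ) ^ s *
      √(P'.card : ℝ) ≤ M * (((B.filter fun b => va p b = e) + P').card : ℝ)) :
    ∀ n j : ℕ, N ≤ j + n → ∀ Q ⊆ P, (∀ x ∈ Q, ∀ y ∈ Q, ((p ^ j : ℕ) : ℤ) ∣ x - y) →
      1.14 * S * (∑ e ∈ Finset.Ico j N, ((B.filter fun b => va p b = e).card : ℝ) ^ s) *
        √(Q.card : ℝ) ≤ M * (((B.filter fun b => j ≤ va p b) + Q).card : ℝ) := by
  classical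
  intro n
  induction n with
  | zero =>
    intro j hj Q _ _
    rw [Finset.Ico_eq_empty (by omega)]
    simp only [Finset.sum_empty, mul_zero, zero_mul]
    positivity
  | succ n ih =>
    intro j hj Q hQP hQ
    rcases Nat.lt_or_ge j N with hjN | hjN
    swap
    · rw [Finset.Ico_eq_empty (by omega)]
      simp only [Finset.sum_empty, mul_zero, zero_mul]
      positivity
    rcases Q.eq_empty_or_nonempty with rfl | hQn
    · simp
    -- the classes modulo `p ^ (j + 1)`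
    obtain ⟨r, hr⟩ : ∃ r : ℤ → ℤ, r = fun x => x % ((p ^ (j + 1) : ℕ) : ℤ) := ⟨_, rfl⟩
    have hC : (Q.image r).Nonempty := hQn.image r
    obtain ⟨c₀, hc₀, hmax⟩ := Finset.exists_max_image (Q.image r)
      (fun c => (Q.filter fun x => r x = c).card) hC
    obtain ⟨Bg, hBg⟩ : ∃ X : Finset ℤ, X = B.filter fun b => j ≤ va p b := ⟨_, rfl⟩
    obtain ⟨Bg1, hBg1⟩ : ∃ X : Finset ℤ, X = B.filter fun b => j + 1 ≤ va p b := ⟨_, rfl⟩
    obtain ⟨Be, hBe⟩ : ∃ X : Finset ℤ, X = B.filter fun b => va p b = j := ⟨_, rfl⟩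
    obtain ⟨Qc, hQc⟩ : ∃ X : ℤ → Finset ℤ, X = fun c => Q.filter fun x => r x = c := ⟨_, rfl⟩
    have hQcQ : ∀ c, Qc c ⊆ Q := fun c => by
      rw [hQc]
      exact Finset.filter_subset _ _
    have hQcP : ∀ c, Qc c ⊆ P := fun c => (hQcQ c).trans hQP
    have hQcd : ∀ c, ∀ x ∈ Qc c, ∀ y ∈ Qc c, ((p ^ (j + 1) : ℕ) : ℤ) ∣ x - y := by
      intro c x hx y hy
      simp only [hQc, hr, Finset.mem_filter] at hx hy
      exact Int.ModEq.dvd (hy.2.trans hx.2.symm)
    have hBg1g : Bg1 ⊆ Bg := by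
      intro b hb
      simp only [hBg1, hBg, Finset.mem_filter] at hb ⊢
      exact ⟨hb.1, by omega⟩
    have hBeg : Be ⊆ Bg := by
      intro b hb
      simp only [hBe, hBg, Finset.mem_filter] at hb ⊢
      exact ⟨hb.1, hb.2.ge⟩
    have hdvd : ∀ b ∈ Bg1, ((p ^ (j + 1) : ℕ) : ℤ) ∣ b := by
      intro b hb
      simp only [hBg1, Finset.mem_filter] at hb
      exact (dvd_iff p (j + 1) hp b (fun h => h0 (h ▸ hb.1))).2 hb.2
    have hndvd : ∀ b ∈ Be, ¬ ((p ^ (j + 1) : ℕ) : ℤ) ∣ b := by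
      intro b hb hcon
      simp only [hBe, Finset.mem_filter] at hb
      have := (dvd_iff p (j + 1) hp b (fun h => h0 (h ▸ hb.1))).1 hcon
      omega
    have hmod1 : ∀ b ∈ Bg1, ∀ x, r (b + x) = r x := by
      intro b hb x
      simp only [hr]
      obtain ⟨d, hd⟩ := hdvd b hb
      rw [hd, add_comm, Int.add_mul_emod_self_left]
    have hmod2 : ∀ b ∈ Be, ∀ x, r (b + x) ≠ r x := by
      intro b hb x hcon
      apply hndvd b hb
      rw [hr] at hcon
      have : b + x ≡ x [ZMOD ((p ^ (j + 1) : ℕ) : ℤ)] := hcon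
      have h1 := (Int.ModEq.dvd this.symm)
      simpa using h1
    obtain ⟨K, hK⟩ : ∃ K : ℝ, K = ((Bg + Q).card : ℝ) := ⟨_, rfl⟩
    -- (3)
    have h3 : 3 * S * (Be.card : ℝ) ^ s * √(Q.card : ℝ) ≤ M * K := by
      have h := H j Q hQP
      rw [← hBe] at h
      refine h.trans (mul_le_mul_of_nonneg_left ?_ hM)
      rw [hK]
      exact_mod_cast Finset.card_le_card (Finset.add_subset_add_right hBeg)
    -- (2)
    obtain ⟨T, hT⟩ : ∃ T : ℝ, T = ∑ e ∈ Finset.Ico (j + 1) N,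
      ((B.filter fun b => va p b = e).card : ℝ) ^ s := ⟨_, rfl⟩
    have hT0 : 0 ≤ T := by
      rw [hT]
      exact Finset.sum_nonneg fun e _ => Real.rpow_nonneg (Nat.cast_nonneg _) _
    have hST : 0 ≤ 1.14 * S * T := mul_nonneg (mul_nonneg (by norm_num) hS) hT0
    have h2 : (1.14 * S * T + 3 * S * (Be.card : ℝ) ^ s) * √((Qc c₀).card : ℝ) ≤ M * K := by
      have e1 := ih (j + 1) (by omega) (Qc c₀) (hQcP c₀) (hQcd c₀)
      have e2 := H j (Qc c₀) (hQcP c₀)
      rw [← hT, ← hBg1] at e1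
      rw [← hBe] at e2
      have hdis : Disjoint (Bg1 + Qc c₀) (Be + Qc c₀) := by
        rw [Finset.disjoint_left]
        intro z hz1 hz2
        obtain ⟨b, hb, x, hx, hbx⟩ := Finset.mem_add.1 hz1
        obtain ⟨b', hb', x', hx', hbx'⟩ := Finset.mem_add.1 hz2
        have g1 := hmod1 b hb x
        have g2 := hmod2 b' hb' x'
        simp only [hQc, Finset.mem_filter] at hx hx'
        rw [hbx, hx.2] at g1
        rw [hbx', hx'.2] at g2
        exact g2 g1
      have hsub : (Bg1 + Qc c₀) ∪ (Be + Qc c₀) ⊆ Bg + Q := by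
        apply Finset.union_subset
        · exact Finset.add_subset_add hBg1g (hQcQ c₀)
        · exact Finset.add_subset_add hBeg (hQcQ c₀)
      have hcard : ((Bg1 + Qc c₀).card : ℝ) + ((Be + Qc c₀).card : ℝ) ≤ K := by
        have := Finset.card_le_card hsub
        rw [Finset.card_union_of_disjoint hdis] at this
        rw [hK]
        exact_mod_cast this
      calc (1.14 * S * T + 3 * S * (Be.card : ℝ) ^ s) * √((Qc c₀).card : ℝ) =
          1.14 * S * T * √((Qc c₀).card : ℝ) +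
            3 * S * (Be.card : ℝ) ^ s * √((Qc c₀).card : ℝ) := by ring
        _ ≤ M * ((Bg1 + Qc c₀).card : ℝ) + M * ((Be + Qc c₀).card : ℝ) := add_le_add e1 e2
        _ = M * (((Bg1 + Qc c₀).card : ℝ) + ((Be + Qc c₀).card : ℝ)) := by ring
        _ ≤ M * K := mul_le_mul_of_nonneg_left hcard hM
    have hQc₀ : 0 < √((Qc c₀).card : ℝ) := by
      apply Real.sqrt_pos.2
      obtain ⟨x, hx, hxc⟩ := Finset.mem_image.1 hc₀
      have : (Qc c₀).Nonempty := ⟨x, by simp only [hQc, Finset.mem_filter]; exact ⟨hx, hxc⟩⟩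
      exact_mod_cast this.card_pos
    -- (1)
    have h1 : 1.14 * S * T * (√(Q.card : ℝ)) ^ 2 / √((Qc c₀).card : ℝ) ≤ M * K := by
      have e1 : ∀ c ∈ Q.image r, 1.14 * S * T * √((Qc c).card : ℝ) ≤
          M * ((Bg1 + Qc c).card : ℝ) := by
        intro c _
        have h := ih (j + 1) (by omega) (Qc c) (hQcP c) (hQcd c)
        rw [← hT, ← hBg1] at h
        exact h
      have e2 := Finset.sum_le_sum e1
      rw [← Finset.mul_sum, ← Finset.mul_sum] at e2
      have e3 : ∑ c ∈ Q.image r, ((Bg1 + Qc c).card : ℝ) ≤ K := by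
        have e4 : ∑ c ∈ Q.image r, (Bg1 + Qc c).card ≤
            ∑ c ∈ Q.image r, ((Bg + Q).filter fun z => r z = c).card := by
          apply Finset.sum_le_sum
          intro c _
          apply Finset.card_le_card
          intro z hz
          obtain ⟨b, hb, x, hx, rfl⟩ := Finset.mem_add.1 hz
          have g1 := hmod1 b hb x
          simp only [hQc, Finset.mem_filter] at hx ⊢
          exact ⟨Finset.add_mem_add (hBg1g hb) hx.1, g1.trans hx.2⟩
        have e5 : ∑ c ∈ Q.image r, ((Bg + Q).filter fun z => r z = c).card ≤ (Bg + Q).card := by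
          rw [Finset.sum_card_fiberwise_eq_card_filter]
          exact Finset.card_filter_le _ _
        rw [hK]
        exact_mod_cast e4.trans e5
      have e6 : (√(Q.card : ℝ)) ^ 2 / √((Qc c₀).card : ℝ) ≤ ∑ c ∈ Q.image r, √((Qc c).card : ℝ) := by
        rw [div_le_iff₀ hQc₀, Real.sq_sqrt (Nat.cast_nonneg _), Finset.sum_mul]
        have e7 : (Q.card : ℝ) = ∑ c ∈ Q.image r, ((Qc c).card : ℝ) := by
          have := Finset.card_eq_sum_card_image r Q
          rw [this, hQc]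
          push_cast
          rfl
        rw [e7]
        apply Finset.sum_le_sum
        intro c hc
        calc ((Qc c).card : ℝ) = √((Qc c).card : ℝ) * √((Qc c).card : ℝ) :=
              (Real.mul_self_sqrt (Nat.cast_nonneg _)).symm
          _ ≤ √((Qc c).card : ℝ) * √((Qc c₀).card : ℝ) := by
            apply mul_le_mul_of_nonneg_left _ (Real.sqrt_nonneg _)
            apply Real.sqrt_le_sqrt
            have h := hmax c hc
            rw [hQc]
            exact_mod_cast h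
      calc 1.14 * S * T * (√(Q.card : ℝ)) ^ 2 / √((Qc c₀).card : ℝ) =
          1.14 * S * T * ((√(Q.card : ℝ)) ^ 2 / √((Qc c₀).card : ℝ)) := by ring
        _ ≤ 1.14 * S * T * ∑ c ∈ Q.image r, √((Qc c).card : ℝ) :=
          mul_le_mul_of_nonneg_left e6 hST
        _ ≤ M * ∑ c ∈ Q.image r, ((Bg1 + Qc c).card : ℝ) := e2
        _ ≤ M * K := mul_le_mul_of_nonneg_left e3 hM
    have hx0 : 0 ≤ 3 * S * (Be.card : ℝ) ^ s :=
      mul_nonneg (mul_nonneg (by norm_num) hS) (Real.rpow_nonneg (Nat.cast_nonneg _) _)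
    have hq0 : 0 < √(Q.card : ℝ) := Real.sqrt_pos.2 (by exact_mod_cast hQn.card_pos)
    have := arith (M * K) (1.14 * S * T) (3 * S * (Be.card : ℝ) ^ s) (√(Q.card : ℝ))
      (√((Qc c₀).card : ℝ)) hST hx0 hq0 hQc₀ h1 h2 h3
    rw [Finset.sum_eq_sum_Ico_succ_bot hjN, ← hT, ← hBe, ← hBg, ← hK]
    calc 1.14 * S * ((Be.card : ℝ) ^ s + T) * √(Q.card : ℝ) =
        (1.14 * S * T + 0.38 * (3 * S * (Be.card : ℝ) ^ s)) * √(Q.card : ℝ) := by ring
      _ ≤ M * K := this

theorem stepB (s : ℝ) (hs0 : 0 < s) (hs1 : s ≤ 1) (p : ℕ) (hp : p.Prime) (B P : Finset ℤ)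
    (hB : B.Nonempty) (hP : P.Nonempty) (h0 : (0 : ℤ) ∉ B) :
    ∃ e : ℕ, (B.filter fun b => va p b = e).Nonempty ∧ ∃ P' ⊆ P, P'.Nonempty ∧
      gam s B P ≤ 3 * gam s (B.filter fun b => va p b = e) P' := by
  classical
  by_contra hcon
  push Not at hcon
  have hBc : (0 : ℝ) < B.card := by exact_mod_cast hB.card_pos
  have hPc : (0 : ℝ) < P.card := by exact_mod_cast hP.card_pos
  have hSc : (0 : ℝ) < (B + P).card := by exact_mod_cast (hB.add hP).card_pos
  set M : ℝ := (B.card : ℝ) ^ s * √(P.card : ℝ) with hM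
  have hM0 : 0 < M := by positivity
  have H : ∀ e : ℕ, ∀ P' ⊆ P, 3 * ((B + P).card : ℝ) *
      ((B.filter fun b => va p b = e).card : ℝ) ^ s * √(P'.card : ℝ) ≤
      M * (((B.filter fun b => va p b = e) + P').card : ℝ) := by
    intro e P' hP'
    rcases (B.filter fun b => va p b = e).eq_empty_or_nonempty with h1 | hBn
    · rw [h1]
      simp [Real.zero_rpow hs0.ne']
    rcases P'.eq_empty_or_nonempty with rfl | hPn
    · simp
    have h1 := hcon e hBn P' hP' hPn
    unfold gam at h1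
    have hSc' : (0 : ℝ) < ((B.filter fun b => va p b = e) + P').card := by
      exact_mod_cast (hBn.add hPn).card_pos
    rw [← mul_div_assoc, div_lt_div_iff₀ hSc' hSc] at h1
    linarith
  set N : ℕ := (B.sup fun b => va p b) + 1 with hN
  have key := tree s hs0 p hp B P h0 ((B + P).card : ℝ) M hSc.le hM0.le N H N 0 (by omega) P
    (Finset.Subset.refl _) (fun x _ y _ => by simp)
  have e0 : (B.filter fun b => 0 ≤ va p b) = B := by
    apply Finset.filter_true_of_mem
    intro b _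
    exact Nat.zero_le _
  rw [e0] at key
  have hcov : B.card = ∑ e ∈ Finset.Ico 0 N, (B.filter fun b => va p b = e).card := by
    apply Finset.card_eq_sum_card_fiberwise
    intro b hb
    have : va p b ≤ B.sup fun b => va p b := Finset.le_sup (f := fun b => va p b) hb
    simp only [Finset.coe_Ico, Set.mem_Ico]
    omega
  have hsub := subadd s hs0 hs1 (Finset.Ico 0 N) fun e => (B.filter fun b => va p b = e).card
  rw [← hcov] at hsub
  have h2 : 1.14 * ((B + P).card : ℝ) * (B.card : ℝ) ^ s * √(P.card : ℝ) ≤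
      M * ((B + P).card : ℝ) := by
    refine le_trans ?_ key
    apply mul_le_mul_of_nonneg_right _ (Real.sqrt_nonneg _)
    exact mul_le_mul_of_nonneg_left hsub (by positivity)
  have h3 : 1.14 * ((B + P).card : ℝ) * (B.card : ℝ) ^ s * √(P.card : ℝ) =
      1.14 * (M * ((B + P).card : ℝ)) := by
    rw [hM]
    ring
  rw [h3] at h2
  have : 0 < M * ((B + P).card : ℝ) := by positivity
  linarith

end Pool.Agent.H87.FS
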