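import Mathlib
import Pool.Agent.H87.FS.StepB

/-!
# A large subset in which no prime is popular
-/

set_option autoImplicit false

namespace Pool.Agent.H87.FS

open Finset Real
open scoped Pointwise BigOperators

theorem small_primes (s : ℝ) (hs0 : 0 < s) (hs1 : s ≤ 1) (B P : Finset ℤ) (hB : B.Nonempty)
    (hP : P.Nonempty) (h0 : (0 : ℤ) ∉ B) (n : ℕ) :
    ∃ B' ⊆ B, B'.Nonempty ∧ ∃ P' ⊆ P, P'.Nonempty ∧ gam s B P ≤ 3 ^ n * gam s B' P' ∧
      ∀ p : ℕ, p.Prime → p < n → ∃ e, ∀ b ∈ B', va p b = e := by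
  classical
  induction n with
  | zero => exact ⟨B, Finset.Subset.refl _, hB, P, Finset.Subset.refl _, hP, by simp, by simp⟩
  | succ n ih =>
    obtain ⟨B', hBB, hBn, P', hPP, hPn, hg, hv⟩ := ih
    by_cases hp : n.Prime
    · obtain ⟨e, he, P'', hP'', hPn'', hg'⟩ :=
        stepB s hs0 hs1 n hp B' P' hBn hPn (fun h => h0 (hBB h))
      refine ⟨_, (Finset.filter_subset _ _).trans hBB, he, P'', hP''.trans hPP, hPn'', ?_, ?_⟩
      · calc gam s B P ≤ 3 ^ n * gam s B' P' := hg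
          _ ≤ 3 ^ n * (3 * gam s (B'.filter fun b => va n b = e) P'') :=
            mul_le_mul_of_nonneg_left hg' (by positivity)
          _ = _ := by ring
      · intro p hp' hpn
        rcases Nat.lt_succ_iff_lt_or_eq.1 hpn with h | h
        · obtain ⟨e', he'⟩ := hv p hp' h
          exact ⟨e', fun b hb => he' b (Finset.mem_of_mem_filter b hb)⟩
        · refine ⟨e, fun b hb => ?_⟩
          rw [h]
          exact (Finset.mem_filter.1 hb).2
    · refine ⟨B', hBB, hBn, P', hPP, hPn, ?_, ?_⟩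
      · refine hg.trans ?_
        apply mul_le_mul_of_nonneg_right _ (gam_pos s B' P' hBn hPn).le
        exact pow_le_pow_right₀ (by norm_num) (Nat.le_succ n)
      · intro p hp' hpn
        rcases Nat.lt_succ_iff_lt_or_eq.1 hpn with h | h
        · exact hv p hp' h
        · exact absurd (h ▸ hp') hp

theorem large_primes (L t : ℝ) (hL : Real.exp 9 ≤ L) (ht0 : 0 < t)
    (ht : t * (90 * Real.log L) ≤ 1) (n : ℕ) (hn : 2 ^ 29 * L ^ 8 ≤ n) :
    ∀ (m : ℕ) (B P : Finset ℤ), B.card ≤ m → B.Nonempty → P.Nonempty → (0 : ℤ) ∉ B →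
      (∀ p : ℕ, p.Prime → p < n → ∃ e, ∀ b ∈ B, va p b = e) →
      ∃ B' ⊆ B, B'.Nonempty ∧ ∃ P' ⊆ P, P'.Nonempty ∧ gam (1 / 2 + t) B P ≤ gam (1 / 2 + t) B' P' ∧
        ∀ p : ℕ, p.Prime → ∃ e, L * ((B'.filter fun b => va p b ≠ e).card : ℝ) ≤ B'.card := by
  classical
  intro m
  induction m with
  | zero =>
    intro B P hm hB
    have := hB.card_pos
    omega
  | succ m ih =>
    intro B P hm hB hP h0 hv
    by_cases hpop : ∀ p : ℕ, p.Prime →
        ∃ e, L * ((B.filter fun b => va p b ≠ e).card : ℝ) ≤ B.card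
    · exact ⟨B, Finset.Subset.refl _, hB, P, Finset.Subset.refl _, hP, le_rfl, hpop⟩
    · push Not at hpop
      obtain ⟨p, hp, hpop⟩ := hpop
      have hpn : n ≤ p := by
        by_contra hcon
        push Not at hcon
        obtain ⟨e, he⟩ := hv p hp hcon
        have h1 := hpop e
        have h2 : (B.filter fun b => va p b ≠ e) = ∅ := by
          rw [Finset.filter_eq_empty_iff]
          intro b hb
          simp [he b hb]
        rw [h2] at h1
        simp only [Finset.card_empty, Nat.cast_zero, mul_zero] at h1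
        have : (0 : ℝ) ≤ B.card := Nat.cast_nonneg _
        linarith
      have hpL : 2 ^ 29 * L ^ 8 ≤ (p : ℝ) := hn.trans (by exact_mod_cast hpn)
      obtain ⟨B', hBB, hBn, P', hPP, hPn, hg⟩ := stepA L t hL ht0 ht p hp hpL B P hB hP h0 hpop
      have hc := Finset.card_lt_card hBB
      obtain ⟨B'', hBB'', hBn'', P'', hPP'', hPn'', hg'', hv''⟩ := ih B' P' (by omega) hBn hPn
        (fun h => h0 (hBB.1 h)) (fun q hq hqn => by
          obtain ⟨e, he⟩ := hv q hq hqn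
          exact ⟨e, fun b hb => he b (hBB.1 hb)⟩)
      exact ⟨B'', hBB''.trans hBB.1, hBn'', P'', hPP''.trans hPP, hPn'', hg.trans hg'', hv''⟩

theorem card_add_ge (B P : Finset ℤ) (hB : B.Nonempty) (hP : P.Nonempty) :
    √((B.card : ℝ) * P.card) ≤ ((B + P).card : ℝ) := by
  have h1 : (B.card : ℝ) ≤ ((B + P).card : ℝ) := by
    exact_mod_cast Finset.card_le_card_add_right hP
  have h2 : (P.card : ℝ) ≤ ((B + P).card : ℝ) := by
    exact_mod_cast Finset.card_le_card_add_left hB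
  rw [Real.sqrt_le_left (by positivity)]
  nlinarith [Nat.cast_nonneg (α := ℝ) B.card, Nat.cast_nonneg (α := ℝ) P.card]

theorem gam_le (t : ℝ) (B P : Finset ℤ) (hB : B.Nonempty) (hP : P.Nonempty) :
    gam (1 / 2 + t) B P ≤ (B.card : ℝ) ^ t := by
  have hBc : (0 : ℝ) < B.card := by exact_mod_cast hB.card_pos
  have hSc : (0 : ℝ) < (B + P).card := by exact_mod_cast (hB.add hP).card_pos
  unfold gam
  rw [div_le_iff₀ hSc, Real.rpow_add hBc]
  have h := card_add_ge B P hB hP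
  rw [Real.sqrt_mul hBc.le, Real.sqrt_eq_rpow (B.card : ℝ)] at h
  calc (B.card : ℝ) ^ (1 / 2 : ℝ) * (B.card : ℝ) ^ t * √(P.card : ℝ) =
      (B.card : ℝ) ^ t * ((B.card : ℝ) ^ (1 / 2 : ℝ) * √(P.card : ℝ)) := by ring
    _ ≤ _ := mul_le_mul_of_nonneg_left h (by positivity)

/-- **The reduction.** A set `B` of nonzero integers with few sums `B + P` has a large subset in
which every prime has the same exponent in almost all elements. -/
theorem reduction (L t : ℝ) (hL : Real.exp 9 ≤ L) (ht0 : 0 < t)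
    (ht : t * (90 * Real.log L) ≤ 1) (n : ℕ) (hn : 2 ^ 29 * L ^ 8 ≤ n) (B P : Finset ℤ)
    (hB : B.Nonempty) (hP : P.Nonempty) (h0 : (0 : ℤ) ∉ B) :
    ∃ B' ⊆ B, B'.Nonempty ∧
      (B.card : ℝ) ^ t * (√((B.card : ℝ) * P.card) / (B + P).card) ≤ 3 ^ n * (B'.card : ℝ) ^ t ∧
      ∀ p : ℕ, p.Prime → ∃ e, L * ((B'.filter fun b => va p b ≠ e).card : ℝ) ≤ B'.card := by
  classical
  have hlog : 9 ≤ Real.log L := by
    rw [Real.le_log_iff_exp_le ((Real.exp_pos 9).trans_le hL)]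
    exact hL
  have ht1 : t ≤ 1 / 2 := by nlinarith
  obtain ⟨B₁, hB₁, hBn₁, P₁, hP₁, hPn₁, hg₁, hv₁⟩ :=
    small_primes (1 / 2 + t) (by linarith) (by linarith) B P hB hP h0 n
  obtain ⟨B₂, hB₂, hBn₂, P₂, hP₂, hPn₂, hg₂, hv₂⟩ :=
    large_primes L t hL ht0 ht n hn B₁.card B₁ P₁ le_rfl hBn₁ hPn₁ (fun h => h0 (hB₁ h)) hv₁
  refine ⟨B₂, hB₂.trans hB₁, hBn₂, ?_, hv₂⟩
  have hBc : (0 : ℝ) < B.card := by exact_mod_cast hB.card_pos
  have e : gam (1 / 2 + t) B P = (B.card : ℝ) ^ t * (√((B.card : ℝ) * P.card) / (B + P).card) := by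
    unfold gam
    rw [Real.rpow_add hBc, Real.sqrt_mul hBc.le, Real.sqrt_eq_rpow (B.card : ℝ)]
    ring
  rw [← e]
  calc gam (1 / 2 + t) B P ≤ 3 ^ n * gam (1 / 2 + t) B₁ P₁ := hg₁
    _ ≤ 3 ^ n * gam (1 / 2 + t) B₂ P₂ := mul_le_mul_of_nonneg_left hg₂ (by positivity)
    _ ≤ 3 ^ n * (B₂.card : ℝ) ^ t :=
      mul_le_mul_of_nonneg_left (gam_le t B₂ P₂ hBn₂ hPn₂) (by positivity)

end Pool.Agent.H87.FS
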