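import Mathlib
import Pool.Agent.H87.FS.Reduce
import Pool.Graph.R_pool_sql_team_seeded_2aa45f1a.Q247.OK.Sets

/-!
# Few sums, many products
-/

set_option autoImplicit false

namespace Pool.Agent.H87.FS

open Finset Real
open scoped Pointwise BigOperators

/-- The closeness `√(|A| |P|) / |A + P|`. -/
theorem ratio_le_one (A P : Finset ℤ) (hA : A.Nonempty) (hP : P.Nonempty) :
    √((A.card : ℝ) * P.card) / ((A + P).card : ℝ) ≤ 1 := by
  have h : (0 : ℝ) < (A + P).card := by exact_mod_cast (hA.add hP).card_pos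
  rw [div_le_one h]
  exact card_add_ge A P hA hP

theorem ratio_pos (A P : Finset ℤ) (hA : A.Nonempty) (hP : P.Nonempty) :
    0 < √((A.card : ℝ) * P.card) / ((A + P).card : ℝ) := by
  have h : (0 : ℝ) < (A + P).card := by exact_mod_cast (hA.add hP).card_pos
  have h1 : (0 : ℝ) < A.card := by exact_mod_cast hA.card_pos
  have h2 : (0 : ℝ) < P.card := by exact_mod_cast hP.card_pos
  positivity

theorem erase_card (A : Finset ℤ) (hA : ∃ a ∈ A, a ≠ 0) :
    (A.erase 0).Nonempty ∧ (A.card : ℝ) / 2 ≤ (A.erase 0).card := by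
  obtain ⟨a, ha, ha0⟩ := hA
  have hne : (A.erase 0).Nonempty := ⟨a, Finset.mem_erase.2 ⟨ha0, ha⟩⟩
  refine ⟨hne, ?_⟩
  have h1 : 1 ≤ (A.erase 0).card := hne.card_pos
  have h2 : A.card ≤ (A.erase 0).card + 1 := by
    have := Finset.pred_card_le_card_erase (s := A) (a := 0)
    omega
  have h1' : (1 : ℝ) ≤ (A.erase 0).card := by exact_mod_cast h1
  have h2' : (A.card : ℝ) ≤ (A.erase 0).card + 1 := by exact_mod_cast h2
  linarith

/-- One set: a large subset in which no prime is popular. -/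
theorem oneSet (L t : ℝ) (hL : Real.exp 9 ≤ L) (ht0 : 0 < t)
    (ht : t * (90 * Real.log L) ≤ 1) (n : ℕ) (hn : 2 ^ 29 * L ^ 8 ≤ n) (A P : Finset ℤ)
    (hA : ∃ a ∈ A, a ≠ 0) (hP : P.Nonempty) :
    ∃ B ⊆ A, B.Nonempty ∧ (0 : ℤ) ∉ B ∧
      Real.exp (-((n * Real.log 3 + Real.log 2 / 2) / t + Real.log 2)) * (A.card : ℝ) *
        (√((A.card : ℝ) * P.card) / (A + P).card) ^ (1 / t) ≤ (B.card : ℝ) ∧
      ∀ p : ℕ, p.Prime → ∃ e, L * ((B.filter fun b => va p b ≠ e).card : ℝ) ≤ B.card := by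
  obtain ⟨hne, hc⟩ := erase_card A hA
  have hAne : A.Nonempty := hne.mono (Finset.erase_subset _ _)
  obtain ⟨B, hB, hBn, hcard, hv⟩ := reduction L t hL ht0 ht n hn (A.erase 0) P hne hP
    (Finset.notMem_erase 0 A)
  refine ⟨B, hB.trans (Finset.erase_subset _ _), hBn,
    fun h => Finset.notMem_erase 0 A (hB h), ?_, hv⟩
  have hAc : (0 : ℝ) < A.card := by exact_mod_cast hAne.card_pos
  have hPc : (0 : ℝ) < P.card := by exact_mod_cast hP.card_pos
  have hSc : (0 : ℝ) < (A + P).card := by exact_mod_cast (hAne.add hP).card_pos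
  have hSc' : (0 : ℝ) < (A.erase 0 + P).card := by exact_mod_cast (hne.add hP).card_pos
  have hBc : (0 : ℝ) < B.card := by exact_mod_cast hBn.card_pos
  obtain ⟨x, hx⟩ : ∃ x : ℝ, x = √((A.card : ℝ) * P.card) / (A + P).card := ⟨_, rfl⟩
  have hx0 : 0 < x := hx ▸ ratio_pos A P hAne hP
  -- the ratio without zero
  have h1 : x / √2 ≤ √(((A.erase 0).card : ℝ) * P.card) / (A.erase 0 + P).card := by
    have e0 : x / √2 = (√((A.card : ℝ) * P.card) / √2) / (A + P).card := by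
      rw [hx, div_div, div_div, mul_comm (√2)]
    rw [e0]
    have e1 : √((A.card : ℝ) * P.card) / √2 ≤ √(((A.erase 0).card : ℝ) * P.card) := by
      rw [← Real.sqrt_div (by positivity)]
      apply Real.sqrt_le_sqrt
      nlinarith
    have e2 : ((A.erase 0 + P).card : ℝ) ≤ (A + P).card := by
      exact_mod_cast Finset.card_le_card (Finset.add_subset_add_right (Finset.erase_subset _ _))
    exact div_le_div₀ (Real.sqrt_nonneg _) e1 hSc' e2
  have h2 : ((A.card : ℝ) / 2) ^ t * (x / √2) ≤ 3 ^ n * (B.card : ℝ) ^ t := by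
    refine le_trans ?_ hcard
    apply mul_le_mul _ h1 (by positivity) (by positivity)
    exact Real.rpow_le_rpow (by positivity) hc ht0.le
  have h3 : (((A.card : ℝ) / 2) ^ t * (x / √2)) ^ (1 / t) ≤
      (3 ^ n * (B.card : ℝ) ^ t) ^ (1 / t) :=
    Real.rpow_le_rpow (by positivity) h2 (by positivity)
  rw [Real.mul_rpow (by positivity) (by positivity), Real.mul_rpow (by positivity) (by positivity),
    ← Real.rpow_mul (by positivity), ← Real.rpow_mul (by positivity), mul_one_div_cancel ht0.ne',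
    Real.rpow_one, Real.rpow_one] at h3
  rw [← hx]
  have e3 : ((3 : ℝ) ^ n) ^ (1 / t) = Real.exp (n * Real.log 3 / t) := by
    rw [← Real.rpow_natCast, ← Real.rpow_mul (by norm_num), Real.rpow_def_of_pos (by norm_num)]
    congr 1
    ring
  have e4 : (x / √2) ^ (1 / t) = x ^ (1 / t) * Real.exp (-(Real.log 2 / 2 / t)) := by
    rw [Real.div_rpow hx0.le (Real.sqrt_nonneg _), div_eq_mul_inv]
    congr 1
    rw [Real.rpow_def_of_pos (by positivity), ← Real.exp_neg, Real.log_sqrt (by norm_num)]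
    congr 1
    ring
  rw [e3, e4] at h3
  have e5 : Real.exp (-((n * Real.log 3 + Real.log 2 / 2) / t + Real.log 2)) =
      Real.exp (-(n * Real.log 3 / t)) * Real.exp (-(Real.log 2 / 2 / t)) * (1 / 2) := by
    rw [← Real.exp_add]
    have : (1 / 2 : ℝ) = Real.exp (-Real.log 2) := by
      rw [Real.exp_neg, Real.exp_log (by norm_num)]
      norm_num
    rw [this, ← Real.exp_add]
    congr 1
    ring
  rw [e5]
  have h4 : Real.exp (-(n * Real.log 3 / t)) *
      (((A.card : ℝ) / 2) * (x ^ (1 / t) * Real.exp (-(Real.log 2 / 2 / t)))) ≤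
      Real.exp (-(n * Real.log 3 / t)) * (Real.exp (n * Real.log 3 / t) * (B.card : ℝ)) :=
    mul_le_mul_of_nonneg_left h3 (Real.exp_pos _).le
  rw [← mul_assoc (Real.exp (-(n * Real.log 3 / t))) (Real.exp (n * Real.log 3 / t)),
    ← Real.exp_add, neg_add_cancel, Real.exp_zero, one_mul] at h4
  linarith

theorem const_bound (k n : ℕ) (u : ℝ) (hu1 : 1 ≤ u) (hku : (k : ℝ) ≤ u)
    (hn : (n : ℝ) ≤ 2 ^ 29 * Real.exp (72 * u) + 1) :
    k * Real.log 4 + Real.log 2 +
      k * ((n * Real.log 3 + Real.log 2 / 2) * (810 * u) + Real.log 2) ≤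
      Real.exp (1000 * u) := by
  have hl2 : Real.log 2 ≤ 1 := by
    have := Real.log_two_lt_d9
    linarith
  have hl20 : 0 ≤ Real.log 2 := Real.log_nonneg (by norm_num)
  have hl4 : Real.log 4 ≤ 2 := by
    have : Real.log 4 = 2 * Real.log 2 := by
      rw [show (4 : ℝ) = 2 ^ 2 by norm_num, Real.log_pow]
      norm_num
    linarith
  have hl3 : Real.log 3 ≤ 2 := by
    have : Real.log 3 ≤ Real.log 4 := Real.log_le_log (by norm_num) (by norm_num)
    linarith
  have hl30 : 0 ≤ Real.log 3 := Real.log_nonneg (by norm_num)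
  have hk0 : (0 : ℝ) ≤ k := Nat.cast_nonneg _
  have hn0 : (0 : ℝ) ≤ n := Nat.cast_nonneg _
  have hu0 : 0 < u := by linarith
  obtain ⟨E, hE⟩ : ∃ E, E = Real.exp (72 * u) := ⟨_, rfl⟩
  have hE1 : 1 ≤ E := by
    rw [hE]
    exact Real.one_le_exp (by positivity)
  have hn2 : (n : ℝ) ≤ 2 ^ 30 * E := by
    rw [← hE] at hn
    nlinarith
  have h1 : (n : ℝ) * Real.log 3 + Real.log 2 / 2 ≤ 2 ^ 32 * E := by nlinarith
  have h2 : ((n : ℝ) * Real.log 3 + Real.log 2 / 2) * (810 * u) + Real.log 2 ≤ 2 ^ 42 * E * u := by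
    have : ((n : ℝ) * Real.log 3 + Real.log 2 / 2) * (810 * u) ≤ 2 ^ 32 * E * (810 * u) :=
      mul_le_mul_of_nonneg_right h1 (by positivity)
    have h3 : 1 ≤ E * u := by nlinarith
    nlinarith
  have h2' : 0 ≤ ((n : ℝ) * Real.log 3 + Real.log 2 / 2) * (810 * u) + Real.log 2 := by positivity
  have h3 : (k : ℝ) * (((n : ℝ) * Real.log 3 + Real.log 2 / 2) * (810 * u) + Real.log 2) ≤
      u * (2 ^ 42 * E * u) := mul_le_mul hku h2 h2' hu0.le
  have h4 : (k : ℝ) * Real.log 4 + Real.log 2 ≤ 4 * (E * u * u) := by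
    have h5 : (k : ℝ) * Real.log 4 ≤ u * 2 := mul_le_mul hku hl4 (Real.log_nonneg (by norm_num)) hu0.le
    have h6 : 1 ≤ E * u := by nlinarith
    nlinarith
  have h5 : (k : ℝ) * Real.log 4 + Real.log 2 +
      k * ((n * Real.log 3 + Real.log 2 / 2) * (810 * u) + Real.log 2) ≤
      2 ^ 43 * E * u ^ 2 := by nlinarith
  refine h5.trans ?_
  have h6 : u ≤ Real.exp u := by
    have := Real.add_one_le_exp u
    linarith
  have h7 : (2 : ℝ) ^ 43 ≤ Real.exp (43 * u) := by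
    have h8 : (2 : ℝ) ≤ Real.exp u := by
      have := Real.add_one_le_exp u
      linarith
    calc (2 : ℝ) ^ 43 ≤ Real.exp u ^ 43 := pow_le_pow_left₀ (by norm_num) h8 43
      _ = Real.exp (43 * u) := by
        rw [← Real.exp_nat_mul]
        norm_num
  have h8 : u ^ 2 ≤ Real.exp (2 * u) := by
    calc u ^ 2 ≤ Real.exp u ^ 2 := pow_le_pow_left₀ hu0.le h6 2
      _ = Real.exp (2 * u) := by
        rw [← Real.exp_nat_mul]
        norm_num
  calc 2 ^ 43 * E * u ^ 2 ≤ Real.exp (43 * u) * E * Real.exp (2 * u) := by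
        apply mul_le_mul _ h8 (by positivity) (by positivity)
        exact mul_le_mul_of_nonneg_right h7 (by positivity)
    _ = Real.exp (117 * u) := by
        rw [hE, ← Real.exp_add, ← Real.exp_add]
        congr 1
        ring
    _ ≤ Real.exp (1000 * u) := Real.exp_le_exp.2 (by nlinarith)

/-- **Few sums, many products.** -/
theorem mainProd (k : ℕ) (hk : 1 ≤ k) (ε : ℝ) (hε : 0 < ε) (hε1 : ε ≤ 1) (A₀ : Finset ℤ)
    (A P : Fin k → Finset ℤ) (hA₀ : ∃ a ∈ A₀, a ≠ 0) (hA : ∀ i, ∃ a ∈ A i, a ≠ 0)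
    (hP : ∀ i, (P i).Nonempty) :
    Real.exp (-Real.exp (1000 * k / ε)) * ((A₀.card : ℝ) * ∏ i, ((A i).card : ℝ)) ^ (1 - ε) *
      ∏ i, (√(((A i).card : ℝ) * (P i).card) / ((A i + P i).card : ℝ)) ^ (1000 * k / ε) ≤
      ((A₀ * ∏ i, A i).card : ℝ) := by
  classical
  have hk0 : (1 : ℝ) ≤ k := by exact_mod_cast hk
  obtain ⟨u, hu⟩ : ∃ u : ℝ, u = k / ε := ⟨_, rfl⟩
  have hku : (k : ℝ) ≤ u := by
    rw [hu, le_div_iff₀ hε]
    nlinarith
  have hu1 : 1 ≤ u := hk0.trans hku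
  have hu0 : 0 < u := by linarith
  obtain ⟨L, hLd⟩ : ∃ L : ℝ, L = Real.exp (9 * u) := ⟨_, rfl⟩
  have hL : Real.exp 9 ≤ L := by
    rw [hLd]
    exact Real.exp_le_exp.2 (by linarith)
  have hLlog : Real.log L = 9 * u := by rw [hLd, Real.log_exp]
  have hL1 : 1 < L := by
    have := Real.add_one_le_exp (9 : ℝ)
    linarith
  obtain ⟨t, htd⟩ : ∃ t : ℝ, t = 1 / (810 * u) := ⟨_, rfl⟩
  have ht0 : 0 < t := by rw [htd]; positivity
  have ht1 : 1 / t = 810 * u := by rw [htd, one_div_one_div]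
  have ht : t * (90 * Real.log L) ≤ 1 := by
    rw [hLlog, htd]
    apply le_of_eq
    field_simp
    norm_num
  obtain ⟨n, hnd⟩ : ∃ n : ℕ, n = ⌈2 ^ 29 * L ^ 8⌉₊ := ⟨_, rfl⟩
  have hn1 : 2 ^ 29 * L ^ 8 ≤ (n : ℝ) := by rw [hnd]; exact Nat.le_ceil _
  have hn2 : (n : ℝ) ≤ 2 ^ 29 * Real.exp (72 * u) + 1 := by
    have h := (Nat.ceil_lt_add_one (a := 2 ^ 29 * L ^ 8) (by positivity)).le
    rw [← hnd] at h
    have e : L ^ 8 = Real.exp (72 * u) := by
      rw [hLd, ← Real.exp_nat_mul]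
      congr 1
      push_cast
      ring
    rwa [e] at h
  choose B hBA hBn hB0 hBc hBv using fun i => oneSet L t hL ht0 ht n hn1 (A i) (P i) (hA i) (hP i)
  obtain ⟨hA₀n, hA₀c⟩ := erase_card A₀ hA₀
  have key := Pool.Agent.Q247.OK.oneSidedK k L hL1 (A₀.erase 0) B hA₀n hBn
    (Finset.notMem_erase 0 A₀) hB0 (fun _ => ∅) (by simp) (by
      intro i p hp _
      exact hBv i p hp)
  have hpart : ∏ i, ((Finset.image (Pool.Agent.Q247.KP.part ∅) (B i)).card : ℝ) = 1 := by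
    apply Finset.prod_eq_one
    intro i _
    have : Finset.image (Pool.Agent.Q247.KP.part ∅) (B i) = {1} := by
      ext z
      simp only [Finset.mem_image, Finset.mem_singleton]
      constructor
      · rintro ⟨b, _, rfl⟩
        simp [Pool.Agent.Q247.KP.part]
      · rintro rfl
        obtain ⟨b, hb⟩ := hBn i
        exact ⟨b, hb, by simp [Pool.Agent.Q247.KP.part]⟩
    rw [this]
    simp
  simp only [hpart, mul_one] at key
  have hexp : 1 - 9 * (k : ℝ) / Real.log L = 1 - ε := by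
    rw [hLlog, hu]
    field_simp
  rw [hexp] at key
  have hsub : (A₀.erase 0) * Pool.Agent.Q247.OK.PB B ⊆ A₀ * ∏ i, A i := by
    apply Finset.mul_subset_mul (Finset.erase_subset _ _)
    intro z hz
    unfold Pool.Agent.Q247.OK.PB at hz
    obtain ⟨b, hb, rfl⟩ := Finset.mem_image.1 hz
    rw [Fintype.mem_piFinset] at hb
    rw [← Finset.mem_coe, Finset.coe_prod]
    exact Set.finsetProd_mem_finsetProd _ _ _ (fun i _ => Finset.mem_coe.2 (hBA i (hb i)))
  have hcard : (((A₀.erase 0) * Pool.Agent.Q247.OK.PB B).card : ℝ) ≤ ((A₀ * ∏ i, A i).card : ℝ) := by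
    exact_mod_cast Finset.card_le_card hsub
  obtain ⟨d, hd⟩ : ∃ d : ℝ, d = (n * Real.log 3 + Real.log 2 / 2) / t + Real.log 2 := ⟨_, rfl⟩
  obtain ⟨x, hx⟩ : ∃ x : Fin k → ℝ,
    x = fun i => √(((A i).card : ℝ) * (P i).card) / ((A i + P i).card : ℝ) := ⟨_, rfl⟩
  have hAn : ∀ i, (A i).Nonempty := fun i => (hBn i).mono (hBA i)
  have hx0 : ∀ i, 0 < x i := fun i => by rw [hx]; exact ratio_pos _ _ (hAn i) (hP i)
  have hx1 : ∀ i, x i ≤ 1 := fun i => by rw [hx]; exact ratio_le_one _ _ (hAn i) (hP i)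
  have hBc' : ∀ i, Real.exp (-d) * ((A i).card : ℝ) * (x i) ^ (810 * u) ≤ ((B i).card : ℝ) := by
    intro i
    have := hBc i
    rw [ht1, ← hd] at this
    rw [hx]
    exact this
  have hd0 : 0 ≤ d := by
    rw [hd]
    have : 0 ≤ Real.log 2 := Real.log_nonneg (by norm_num)
    have : 0 ≤ Real.log 3 := Real.log_nonneg (by norm_num)
    positivity
  obtain ⟨Z, hZ⟩ : ∃ Z : ℝ, Z = (A₀.card : ℝ) * ∏ i, ((A i).card : ℝ) := ⟨_, rfl⟩
  have hA₀pos : (0 : ℝ) < A₀.card := by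
    have := hA₀n.card_pos
    have h2 : (0 : ℝ) < (A₀.erase 0).card := by exact_mod_cast this
    have h3 : ((A₀.erase 0).card : ℝ) ≤ A₀.card := by
      exact_mod_cast Finset.card_le_card (Finset.erase_subset _ _)
    linarith
  have hAipos : ∀ i, (0 : ℝ) < (A i).card := fun i => by exact_mod_cast (hAn i).card_pos
  have hZ0 : 0 < Z := by
    rw [hZ]
    exact mul_pos hA₀pos (Finset.prod_pos fun i _ => hAipos i)
  obtain ⟨y, hy⟩ : ∃ y : ℝ, y = 1 / 2 * Real.exp (-d) ^ k * ∏ i, (x i) ^ (810 * u) := ⟨_, rfl⟩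
  have hprodx0 : 0 < ∏ i, (x i) ^ (810 * u) :=
    Finset.prod_pos fun i _ => Real.rpow_pos_of_pos (hx0 i) _
  have hprodx1 : ∏ i, (x i) ^ (810 * u) ≤ 1 := by
    apply Finset.prod_le_one
    · intro i _
      exact Real.rpow_nonneg (hx0 i).le _
    · intro i _
      exact Real.rpow_le_one (hx0 i).le (hx1 i) (by positivity)
  have hy0 : 0 < y := by rw [hy]; positivity
  have hed : Real.exp (-d) ^ k ≤ 1 := pow_le_one₀ (Real.exp_pos _).le
    (Real.exp_le_one_iff.2 (by linarith))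
  have hy1 : y ≤ 1 := by
    rw [hy]
    have h1 : 1 / 2 * Real.exp (-d) ^ k ≤ 1 := by linarith
    calc 1 / 2 * Real.exp (-d) ^ k * ∏ i, (x i) ^ (810 * u) ≤ 1 * 1 :=
          mul_le_mul h1 hprodx1 hprodx0.le (by norm_num)
      _ = 1 := by norm_num
  have hyZ : y * Z ≤ ((A₀.erase 0).card : ℝ) * ∏ i, ((B i).card : ℝ) := by
    have h1 : ∏ i, (Real.exp (-d) * ((A i).card : ℝ) * (x i) ^ (810 * u)) ≤
        ∏ i, ((B i).card : ℝ) := by
      apply Finset.prod_le_prod
      · intro i _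
        have := Real.rpow_nonneg (hx0 i).le (810 * u)
        have := (hAipos i).le
        positivity
      · intro i _
        exact hBc' i
    rw [Finset.prod_mul_distrib, Finset.prod_mul_distrib, Finset.prod_const, Finset.card_univ,
      Fintype.card_fin] at h1
    have hpA : 0 < ∏ i, ((A i).card : ℝ) := Finset.prod_pos fun i _ => hAipos i
    have h2 : 0 ≤ Real.exp (-d) ^ k * (∏ i, ((A i).card : ℝ)) * ∏ i, (x i) ^ (810 * u) := by
      positivity
    calc y * Z = ((A₀.card : ℝ) / 2) *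
        (Real.exp (-d) ^ k * (∏ i, ((A i).card : ℝ)) * ∏ i, (x i) ^ (810 * u)) := by
          rw [hy, hZ]
          ring
      _ ≤ ((A₀.erase 0).card : ℝ) * ∏ i, ((B i).card : ℝ) :=
        mul_le_mul hA₀c h1 h2 (Nat.cast_nonneg _)
  have h1 : y * Z ^ (1 - ε) ≤ (y * Z) ^ (1 - ε) := by
    rw [Real.mul_rpow hy0.le hZ0.le]
    apply mul_le_mul_of_nonneg_right _ (by positivity)
    calc y = y ^ (1 : ℝ) := (Real.rpow_one y).symm
      _ ≤ y ^ (1 - ε) := Real.rpow_le_rpow_of_exponent_ge hy0 hy1 (by linarith)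
  have h2 : (y * Z) ^ (1 - ε) ≤
      (((A₀.erase 0).card : ℝ) * ∏ i, ((B i).card : ℝ)) ^ (1 - ε) :=
    Real.rpow_le_rpow (by positivity) hyZ (by linarith)
  have h3 : y * Z ^ (1 - ε) ≤ 4 ^ k * ((A₀ * ∏ i, A i).card : ℝ) :=
    (h1.trans h2).trans (key.trans (mul_le_mul_of_nonneg_left hcard (by positivity)))
  -- the constant
  have hconst := const_bound k n u hu1 hku hn2
  have hd' : d = (n * Real.log 3 + Real.log 2 / 2) * (810 * u) + Real.log 2 := by
    rw [hd, div_eq_mul_one_div, ht1]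
  rw [← hd'] at hconst
  have hc : Real.exp (-Real.exp (1000 * u)) * 4 ^ k ≤ 1 / 2 * Real.exp (-d) ^ k := by
    have e1 : (4 : ℝ) ^ k = Real.exp (k * Real.log 4) := by
      rw [Real.exp_nat_mul, Real.exp_log (by norm_num)]
    have e2 : (1 / 2 : ℝ) = Real.exp (-Real.log 2) := by
      rw [Real.exp_neg, Real.exp_log (by norm_num)]
      norm_num
    have e3 : Real.exp (-d) ^ k = Real.exp (-(k * d)) := by
      rw [← Real.exp_nat_mul]
      congr 1
      ring
    rw [e1, e2, e3, ← Real.exp_add, ← Real.exp_add]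
    apply Real.exp_le_exp.2
    linarith
  have hux : 1000 * (k : ℝ) / ε = 1000 * u := by
    rw [hu]
    ring
  have hxx : ∏ i, (x i) ^ (1000 * u) ≤ ∏ i, (x i) ^ (810 * u) := by
    apply Finset.prod_le_prod
    · intro i _
      exact Real.rpow_nonneg (hx0 i).le _
    · intro i _
      exact Real.rpow_le_rpow_of_exponent_ge (hx0 i) (hx1 i) (by nlinarith)
  rw [hux, ← hZ]
  have hgoal : ∏ i, (√(((A i).card : ℝ) * (P i).card) / ((A i + P i).card : ℝ)) ^ (1000 * u) =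
      ∏ i, (x i) ^ (1000 * u) := by rw [hx]
  rw [hgoal]
  have hxp0 : 0 ≤ ∏ i, (x i) ^ (1000 * u) :=
    Finset.prod_nonneg fun i _ => Real.rpow_nonneg (hx0 i).le _
  have h4pos : (0 : ℝ) < 4 ^ k := by positivity
  have h5 : 4 ^ k * (Real.exp (-Real.exp (1000 * u)) * Z ^ (1 - ε) * ∏ i, (x i) ^ (1000 * u)) ≤
      4 ^ k * ((A₀ * ∏ i, A i).card : ℝ) := by
    calc 4 ^ k * (Real.exp (-Real.exp (1000 * u)) * Z ^ (1 - ε) * ∏ i, (x i) ^ (1000 * u)) =
        (Real.exp (-Real.exp (1000 * u)) * 4 ^ k) * (∏ i, (x i) ^ (1000 * u)) * Z ^ (1 - ε) := by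
          ring
      _ ≤ (1 / 2 * Real.exp (-d) ^ k) * (∏ i, (x i) ^ (810 * u)) * Z ^ (1 - ε) := by
          apply mul_le_mul_of_nonneg_right _ (by positivity)
          exact mul_le_mul hc hxx hxp0 (by positivity)
      _ = y * Z ^ (1 - ε) := by rw [hy]
      _ ≤ 4 ^ k * ((A₀ * ∏ i, A i).card : ℝ) := h3
  exact le_of_mul_le_mul_left h5 h4pos

end Pool.Agent.H87.FS
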