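import Mathlib
import Pool.Agent.H87.FS.Main
import Pool.Graph.R_seed8.H217R3.AK.Bsg

/-!
# Few sums, many products: consequences
-/

set_option autoImplicit false

namespace Pool.Agent.H87.FS

open Finset Real
open scoped Pointwise BigOperators

theorem energy_pos (A : Finset ℤ) (hA : A.Nonempty) : (0 : ℝ) < (A.addEnergy A : ℕ) := by
  have h : A.card ^ 2 ≤ A.addEnergy A := by
    have := Finset.le_addEnergy (s := A) (t := A)
    rw [sq]
    exact this
  have h1 : 0 < A.card ^ 2 := pow_pos hA.card_pos 2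
  exact_mod_cast h1.trans_le h

theorem energy_le (A : Finset ℤ) : ((A.addEnergy A : ℕ) : ℝ) ≤ (A.card : ℝ) ^ 3 := by
  have h : A.addEnergy A ≤ A.card ^ 3 := by
    have h1 : A.card ^ 3 = (A ×ˢ (A ×ˢ A)).card := by
      rw [Finset.card_product, Finset.card_product]
      ring
    rw [h1]
    unfold Finset.addEnergy
    apply Finset.card_le_card_of_injOn (fun x : (ℤ × ℤ) × ℤ × ℤ => (x.1.1, x.1.2, x.2.1))
    · intro x hx
      simp only [Finset.coe_filter, Finset.mem_product, Set.mem_ofPred_eq] at hx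
      simp only [Finset.coe_product, Set.mem_prod, Finset.mem_coe]
      exact ⟨hx.1.1.1, hx.1.1.2, hx.1.2.1⟩
    · rintro ⟨⟨a, b⟩, c, d⟩ hx ⟨⟨a', b'⟩, c', d'⟩ hy hxy
      simp only [Finset.coe_filter, Finset.mem_product, Set.mem_ofPred_eq] at hx hy
      simp only [Prod.mk.injEq] at hxy
      obtain ⟨h1, h2, h3⟩ := hxy
      have h4 := hx.2
      have h5 := hy.2
      have h6 : d = d' := by
        subst h1 h2 h3
        linarith
      rw [h1, h2, h3, h6]
  exact_mod_cast h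

/-- A large subset with few differences, without zero. -/
theorem bsg0 (A : Finset ℤ) (hA : ∃ a ∈ A, a ≠ 0) (K : ℝ) (hK : 1 ≤ K)
    (hE : (A.card : ℝ) ^ 3 ≤ K * (A.addEnergy A : ℕ)) :
    ∃ B ⊆ A, (∃ b ∈ B, b ≠ 0) ∧ (A.card : ℝ) ≤ 16 * K * B.card ∧
      ((B - B).card : ℝ) ≤ 2 ^ 23 * K ^ 10 * B.card := by
  classical
  obtain ⟨a, ha, ha0⟩ := hA
  obtain ⟨B, hBA, hBn, hB1, hB2⟩ := Pool.Agent.H217R3.AK.bsg A ⟨a, ha⟩ K (by linarith) hE
  have hBc : (0 : ℝ) < B.card := by exact_mod_cast hBn.card_pos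
  by_cases h : ∃ b ∈ B, b ≠ 0
  · refine ⟨B, hBA, h, ?_, ?_⟩
    · nlinarith [mul_pos (by linarith : (0 : ℝ) < K) hBc]
    · have : 0 < K ^ 10 * (B.card : ℝ) := by positivity
      nlinarith
  · push Not at h
    have hB1' : B.card ≤ 1 := by
      rw [Finset.card_le_one]
      intro x hx y hy
      rw [h x hx, h y hy]
    have hB1r : (B.card : ℝ) ≤ 1 := by exact_mod_cast hB1'
    refine ⟨{a}, by simpa using ha, ⟨a, by simp, ha0⟩, ?_, ?_⟩
    · simp only [Finset.card_singleton, Nat.cast_one, mul_one]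
      nlinarith
    · simp only [Finset.card_singleton, Nat.cast_one, mul_one, Finset.singleton_sub,
        Finset.image_singleton, sub_self]
      have : (1 : ℝ) ≤ K ^ 10 := one_le_pow₀ hK
      nlinarith

/-- **Many additive quadruples, many products.** -/
theorem energyProd (k : ℕ) (hk : 1 ≤ k) (ε : ℝ) (hε : 0 < ε) (hε1 : ε ≤ 1) (A₀ : Finset ℤ)
    (A : Fin k → Finset ℤ) (hA₀ : ∃ a ∈ A₀, a ≠ 0) (hA : ∀ i, ∃ a ∈ A i, a ≠ 0) :
    Real.exp (-Real.exp (2000 * k / ε)) * ((A₀.card : ℝ) * ∏ i, ((A i).card : ℝ)) ^ (1 - ε) *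
      ∏ i, (((A i).addEnergy (A i) : ℝ) / ((A i).card : ℝ) ^ 3) ^ (20000 * k / ε) ≤
      ((A₀ * ∏ i, A i).card : ℝ) := by
  classical
  have hk0 : (1 : ℝ) ≤ k := by exact_mod_cast hk
  have hAn : ∀ i, (A i).Nonempty := fun i => by
    obtain ⟨a, ha, _⟩ := hA i
    exact ⟨a, ha⟩
  have hAc : ∀ i, (0 : ℝ) < (A i).card := fun i => by exact_mod_cast (hAn i).card_pos
  have hEp : ∀ i, (0 : ℝ) < (A i).addEnergy (A i) := fun i => energy_pos (A i) (hAn i)
  have hEle : ∀ i, ((A i).addEnergy (A i) : ℝ) ≤ ((A i).card : ℝ) ^ 3 := fun i => energy_le (A i)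
  obtain ⟨z, hz⟩ : ∃ z : Fin k → ℝ,
    z = fun i => ((A i).addEnergy (A i) : ℝ) / ((A i).card : ℝ) ^ 3 := ⟨_, rfl⟩
  have hz0 : ∀ i, 0 < z i := fun i => by
    rw [hz]
    exact div_pos (hEp i) (pow_pos (hAc i) 3)
  have hz1 : ∀ i, z i ≤ 1 := fun i => by
    rw [hz]
    exact (div_le_one (pow_pos (hAc i) 3)).2 (hEle i)
  have hb : ∀ i, ∃ B ⊆ A i, (∃ b ∈ B, b ≠ 0) ∧ ((A i).card : ℝ) ≤ 16 * (z i)⁻¹ * B.card ∧
      ((B - B).card : ℝ) ≤ 2 ^ 23 * ((z i)⁻¹) ^ 10 * B.card := by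
    intro i
    apply bsg0 (A i) (hA i) (z i)⁻¹ (one_le_inv₀ (hz0 i) |>.2 (hz1 i))
    rw [hz]
    have h1 := hEp i
    have h2 := hAc i
    simp only [inv_div]
    rw [div_mul_cancel₀ _ h1.ne']
  choose B hBA hB0 hB1 hB2 using hb
  have hBn : ∀ i, (B i).Nonempty := fun i => by
    obtain ⟨b, hb, _⟩ := hB0 i
    exact ⟨b, hb⟩
  have hBc : ∀ i, (0 : ℝ) < (B i).card := fun i => by exact_mod_cast (hBn i).card_pos
  have key := mainProd k hk ε hε hε1 A₀ B (fun i => -(B i)) hA₀ hB0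
    (fun i => (hBn i).neg)
  obtain ⟨u, hu⟩ : ∃ u : ℝ, u = k / ε := ⟨_, rfl⟩
  have hku : (k : ℝ) ≤ u := by
    rw [hu, le_div_iff₀ hε]
    nlinarith
  have hu1 : 1 ≤ u := hk0.trans hku
  have hu0 : 0 < u := by linarith
  have e1 : 1000 * (k : ℝ) / ε = 1000 * u := by rw [hu]; ring
  have e2 : 2000 * (k : ℝ) / ε = 2000 * u := by rw [hu]; ring
  have e3 : 20000 * (k : ℝ) / ε = 20000 * u := by rw [hu]; ring
  rw [e1] at key
  rw [e2, e3]
  have hzg : ∏ i, (((A i).addEnergy (A i) : ℝ) / ((A i).card : ℝ) ^ 3) ^ (20000 * u) =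
      ∏ i, (z i) ^ (20000 * u) := by rw [hz]
  rw [hzg]
  -- the product set
  have hsub : A₀ * ∏ i, B i ⊆ A₀ * ∏ i, A i := by
    apply Finset.mul_subset_mul_left
    rw [← Finset.coe_subset, Finset.coe_prod, Finset.coe_prod]
    exact Set.finsetProd_subset_finsetProd _ _ _ (fun i _ => Finset.coe_subset.2 (hBA i))
  have hcard : ((A₀ * ∏ i, B i).card : ℝ) ≤ ((A₀ * ∏ i, A i).card : ℝ) := by
    exact_mod_cast Finset.card_le_card hsub
  refine le_trans ?_ (key.trans hcard)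
  -- each factor
  have hr : ∀ i, (2 ^ 23)⁻¹ * (z i) ^ (10 : ℕ) ≤
      √(((B i).card : ℝ) * (-(B i)).card) / ((B i + -(B i)).card : ℝ) := by
    intro i
    have h1 : (-(B i)).card = (B i).card := Finset.card_neg _
    have h2 : B i + -(B i) = B i - B i := (sub_eq_add_neg _ _).symm
    rw [h1, h2, Real.sqrt_mul_self (hBc i).le]
    have hBB : (0 : ℝ) < (B i - B i).card := by exact_mod_cast ((hBn i).sub (hBn i)).card_pos
    rw [le_div_iff₀ hBB]
    have h3 := hB2 i
    have h4 := hz0 i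
    calc (2 ^ 23)⁻¹ * (z i) ^ (10 : ℕ) * ((B i - B i).card : ℝ) ≤
        (2 ^ 23)⁻¹ * (z i) ^ (10 : ℕ) * (2 ^ 23 * ((z i)⁻¹) ^ 10 * (B i).card) :=
          mul_le_mul_of_nonneg_left h3 (by positivity)
      _ = (B i).card := by field_simp
  have hr2 : ∀ i, Real.exp (-(23000 * u)) * (z i) ^ (10000 * u) ≤
      (√(((B i).card : ℝ) * (-(B i)).card) / ((B i + -(B i)).card : ℝ)) ^ (1000 * u) := by
    intro i
    have h4 := hz0 i
    have h1 := Real.rpow_le_rpow (by positivity) (hr i) (by positivity : 0 ≤ 1000 * u)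
    refine le_trans ?_ h1
    rw [Real.mul_rpow (by positivity) (by positivity), ← Real.rpow_natCast (z i) 10,
      ← Real.rpow_mul h4.le]
    have h5 : ((10 : ℕ) : ℝ) * (1000 * u) = 10000 * u := by
      push_cast
      ring
    rw [h5]
    apply mul_le_mul_of_nonneg_right _ (by positivity)
    rw [Real.inv_rpow (by positivity), ← Real.rpow_natCast, ← Real.rpow_mul (by norm_num),
      Real.exp_neg]
    apply inv_anti₀ (by positivity)
    rw [Real.rpow_def_of_pos (by norm_num)]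
    apply Real.exp_le_exp.2
    have := Real.log_two_lt_d9
    push_cast
    nlinarith
  have hr3 : ∀ i, (1 / 16) * z i * ((A i).card : ℝ) ≤ ((B i).card : ℝ) := by
    intro i
    have h1 := hB1 i
    have h4 := hz0 i
    calc (1 / 16) * z i * ((A i).card : ℝ) ≤ (1 / 16) * z i * (16 * (z i)⁻¹ * (B i).card) :=
          mul_le_mul_of_nonneg_left h1 (by positivity)
      _ = (B i).card := by field_simp
  have hA₀c : (0 : ℝ) < A₀.card := by
    obtain ⟨a, ha, _⟩ := hA₀
    have h : A₀.Nonempty := ⟨a, ha⟩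
    exact_mod_cast h.card_pos
  have hpz0 : 0 < ∏ i, z i := Finset.prod_pos fun i _ => hz0 i
  have hpz1 : ∏ i, z i ≤ 1 := Finset.prod_le_one (fun i _ => (hz0 i).le) fun i _ => hz1 i
  have hpA : 0 < ∏ i, ((A i).card : ℝ) := Finset.prod_pos fun i _ => hAc i
  have hpB : 0 < ∏ i, ((B i).card : ℝ) := Finset.prod_pos fun i _ => hBc i
  have hBA' : ((1 / 16) ^ k * ∏ i, z i) * ((A₀.card : ℝ) * ∏ i, ((A i).card : ℝ)) ≤
      (A₀.card : ℝ) * ∏ i, ((B i).card : ℝ) := by
    have h1 : ∏ i, ((1 / 16) * z i * ((A i).card : ℝ)) ≤ ∏ i, ((B i).card : ℝ) := by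
      apply Finset.prod_le_prod
      · intro i _
        have := hz0 i
        have := hAc i
        positivity
      · intro i _
        exact hr3 i
    rw [Finset.prod_mul_distrib, Finset.prod_mul_distrib, Finset.prod_const, Finset.card_univ,
      Fintype.card_fin] at h1
    calc ((1 / 16) ^ k * ∏ i, z i) * ((A₀.card : ℝ) * ∏ i, ((A i).card : ℝ)) =
        (A₀.card : ℝ) * ((1 / 16) ^ k * (∏ i, z i) * ∏ i, ((A i).card : ℝ)) := by ring
      _ ≤ _ := mul_le_mul_of_nonneg_left h1 hA₀c.le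
  obtain ⟨y, hy⟩ : ∃ y : ℝ, y = (1 / 16) ^ k * ∏ i, z i := ⟨_, rfl⟩
  obtain ⟨Z, hZ⟩ : ∃ Z : ℝ, Z = (A₀.card : ℝ) * ∏ i, ((A i).card : ℝ) := ⟨_, rfl⟩
  have hZ0 : 0 < Z := by rw [hZ]; positivity
  have hy0 : 0 < y := by rw [hy]; positivity
  have hy1 : y ≤ 1 := by
    rw [hy]
    have h1 : ((1 : ℝ) / 16) ^ k ≤ 1 := pow_le_one₀ (by norm_num) (by norm_num)
    calc ((1 : ℝ) / 16) ^ k * ∏ i, z i ≤ 1 * 1 := mul_le_mul h1 hpz1 hpz0.le (by norm_num)
      _ = 1 := by norm_num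
  rw [← hy, ← hZ] at hBA'
  rw [← hZ]
  have h1 : y * Z ^ (1 - ε) ≤ ((A₀.card : ℝ) * ∏ i, ((B i).card : ℝ)) ^ (1 - ε) := by
    calc y * Z ^ (1 - ε) ≤ y ^ (1 - ε) * Z ^ (1 - ε) := by
          apply mul_le_mul_of_nonneg_right _ (by positivity)
          calc y = y ^ (1 : ℝ) := (Real.rpow_one y).symm
            _ ≤ y ^ (1 - ε) := Real.rpow_le_rpow_of_exponent_ge hy0 hy1 (by linarith)
      _ = (y * Z) ^ (1 - ε) := (Real.mul_rpow hy0.le hZ0.le).symm
      _ ≤ _ := Real.rpow_le_rpow (by positivity) hBA' (by linarith)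
  have h2 : Real.exp (-(23000 * u)) ^ k * ∏ i, (z i) ^ (10000 * u) ≤
      ∏ i, (√(((B i).card : ℝ) * (-(B i)).card) / ((B i + -(B i)).card : ℝ)) ^ (1000 * u) := by
    have h3 := Finset.prod_le_prod (s := (Finset.univ : Finset (Fin k)))
      (f := fun i => Real.exp (-(23000 * u)) * (z i) ^ (10000 * u))
      (g := fun i => (√(((B i).card : ℝ) * (-(B i)).card) / ((B i + -(B i)).card : ℝ)) ^ (1000 * u))
      (fun i _ => by
        have := hz0 i
        positivity) (fun i _ => hr2 i)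
    rw [Finset.prod_mul_distrib, Finset.prod_const, Finset.card_univ, Fintype.card_fin] at h3
    exact h3
  -- the constants
  have hc : Real.exp (-Real.exp (2000 * u)) ≤
      Real.exp (-Real.exp (1000 * u)) * (1 / 16) ^ k * Real.exp (-(23000 * u)) ^ k := by
    have e4 : ((1 : ℝ) / 16) ^ k ≥ Real.exp (-(3 * k)) := by
      have h5 : Real.exp (-3) ≤ 1 / 16 := by
        rw [Real.exp_neg, one_div]
        apply inv_anti₀ (by norm_num)
        have h6 : (2.7182818283 : ℝ) ^ 3 ≤ Real.exp 1 ^ 3 :=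
          pow_le_pow_left₀ (by norm_num) Real.exp_one_gt_d9.le 3
        have h7 : Real.exp 1 ^ 3 = Real.exp 3 := by
          rw [← Real.exp_nat_mul]
          norm_num
        rw [h7] at h6
        norm_num at h6
        linarith
      calc Real.exp (-(3 * k)) = Real.exp (-3) ^ k := by
            rw [← Real.exp_nat_mul]
            congr 1
            ring
        _ ≤ _ := pow_le_pow_left₀ (Real.exp_pos _).le h5 k
    have e5 : Real.exp (-(23000 * u)) ^ k = Real.exp (-(23000 * u * k)) := by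
      rw [← Real.exp_nat_mul]
      congr 1
      ring
    have e6 : Real.exp (-Real.exp (2000 * u)) ≤
        Real.exp (-Real.exp (1000 * u)) * Real.exp (-(3 * k)) * Real.exp (-(23000 * u * k)) := by
      rw [← Real.exp_add, ← Real.exp_add]
      apply Real.exp_le_exp.2
      have h8 : Real.exp (2000 * u) = Real.exp (1000 * u) * Real.exp (1000 * u) := by
        rw [← Real.exp_add]
        congr 1
        ring
      have h9 : 1000 * u + 1 ≤ Real.exp (1000 * u) := Real.add_one_le_exp _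
      rw [h8]
      nlinarith [mul_le_mul h9 h9 (by positivity) (by positivity)]
    refine e6.trans ?_
    rw [e5]
    apply mul_le_mul_of_nonneg_right _ (by positivity)
    exact mul_le_mul_of_nonneg_left e4 (by positivity)
  have hzz : ∏ i, (z i) ^ (20000 * u) ≤ (∏ i, z i) * ∏ i, (z i) ^ (10000 * u) := by
    rw [← Finset.prod_mul_distrib]
    apply Finset.prod_le_prod
    · intro i _
      exact Real.rpow_nonneg (hz0 i).le _
    · intro i _
      calc (z i) ^ (20000 * u) ≤ (z i) ^ (1 + 10000 * u) :=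
            Real.rpow_le_rpow_of_exponent_ge (hz0 i) (hz1 i) (by nlinarith)
        _ = z i * (z i) ^ (10000 * u) := by
          rw [Real.rpow_add (hz0 i), Real.rpow_one]
  have hp10 : 0 ≤ ∏ i, (z i) ^ (10000 * u) :=
    Finset.prod_nonneg fun i _ => Real.rpow_nonneg (hz0 i).le _
  have hp20 : 0 ≤ ∏ i, (z i) ^ (20000 * u) :=
    Finset.prod_nonneg fun i _ => Real.rpow_nonneg (hz0 i).le _
  calc Real.exp (-Real.exp (2000 * u)) * Z ^ (1 - ε) * ∏ i, (z i) ^ (20000 * u) ≤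
      (Real.exp (-Real.exp (1000 * u)) * (1 / 16) ^ k * Real.exp (-(23000 * u)) ^ k) *
        Z ^ (1 - ε) * ((∏ i, z i) * ∏ i, (z i) ^ (10000 * u)) := by
        apply mul_le_mul _ hzz hp20 (by positivity)
        exact mul_le_mul_of_nonneg_right hc (by positivity)
    _ = Real.exp (-Real.exp (1000 * u)) * (y * Z ^ (1 - ε)) *
        (Real.exp (-(23000 * u)) ^ k * ∏ i, (z i) ^ (10000 * u)) := by
        rw [hy]
        ring
    _ ≤ Real.exp (-Real.exp (1000 * u)) * ((A₀.card : ℝ) * ∏ i, ((B i).card : ℝ)) ^ (1 - ε) *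
        ∏ i, (√(((B i).card : ℝ) * (-(B i)).card) / ((B i + -(B i)).card : ℝ)) ^ (1000 * u) := by
        apply mul_le_mul _ h2 (by positivity) (by positivity)
        exact mul_le_mul_of_nonneg_left h1 (Real.exp_pos _).le

end Pool.Agent.H87.FS
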