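import Mathlib
import Pool.Agent.H87.FS.Cor

/-!
# Few sums, many products: `k`-fold products of one set
-/

set_option autoImplicit false

namespace Pool.Agent.H87.FS

open Finset Real
open scoped Pointwise BigOperators

theorem eta (c₀ r C : ℝ) (hc₀ : 0 < c₀) (hr1 : 1 ≤ r) (hr : c₀ ≤ r ^ 2) (k : ℕ) (hk : 1 ≤ k) (η : ℝ)
    (hη : 0 < η) : ∃ c : ℝ, 0 < c ∧ ∀ (A : Finset ℤ) (y : ℝ), (∃ a ∈ A, a ≠ 0) → 0 < y →
      (A.card : ℝ) ^ (-η) ≤ y →
      (∀ m : ℕ, 1 ≤ m → ∀ ε : ℝ, 0 < ε → ε ≤ 1 →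
        Real.exp (-Real.exp (C * m / ε)) * ((A.card : ℝ) * ∏ _i : Fin m, (A.card : ℝ)) ^ (1 - ε) *
          ∏ _i : Fin m, y ^ (c₀ * m / ε) ≤ ((A * ∏ _i : Fin m, A).card : ℝ)) →
      c * (A.card : ℝ) ^ ((k : ℝ) - 2 * r * k ^ 2 * √η) ≤ ((A ^ k).card : ℝ) := by
  classical
  have hk0 : (1 : ℝ) ≤ k := by exact_mod_cast hk
  have hsη : 0 < √η := Real.sqrt_pos.2 hη
  obtain ⟨ε, hε⟩ : ∃ ε : ℝ, ε = r * k * √η := ⟨_, rfl⟩
  have hε0 : 0 < ε := by rw [hε]; positivity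
  have hcc : 0 < Real.exp (-Real.exp (C * (k - 1 : ℕ) / ε)) := Real.exp_pos _
  refine ⟨min 1 (Real.exp (-Real.exp (C * (k - 1 : ℕ) / ε))), lt_min one_pos hcc, ?_⟩
  intro A y hA hy0 hy hmain
  have hAn : A.Nonempty := by
    obtain ⟨a, ha, _⟩ := hA
    exact ⟨a, ha⟩
  have hN1 : (1 : ℝ) ≤ A.card := by exact_mod_cast hAn.card_pos
  have hN0 : (0 : ℝ) < A.card := by linarith
  have hpow1 : (1 : ℝ) ≤ (A ^ k).card := by
    exact_mod_cast (hAn.pow).card_pos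
  have hmin1 : min 1 (Real.exp (-Real.exp (C * (k - 1 : ℕ) / ε))) ≤ 1 := min_le_left _ _
  have hmin0 : 0 ≤ min 1 (Real.exp (-Real.exp (C * (k - 1 : ℕ) / ε))) :=
    (lt_min one_pos hcc).le
  rcases Nat.lt_or_ge 1 k with hk2 | hk2
  swap
  · have hk1 : k = 1 := le_antisymm hk2 hk
    subst hk1
    rw [pow_one]
    calc _ ≤ 1 * (A.card : ℝ) ^ (1 : ℝ) := by
          apply mul_le_mul hmin1 _ (by positivity) (by norm_num)
          apply Real.rpow_le_rpow_of_exponent_le hN1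
          push_cast
          have : 0 ≤ 2 * r * 1 ^ 2 * √η := by positivity
          linarith
      _ = A.card := by rw [one_mul, Real.rpow_one]
  rcases le_or_gt ε 1 with hε1 | hε1
  swap
  · -- the exponent is negative
    have hneg : (k : ℝ) - 2 * r * k ^ 2 * √η ≤ 0 := by
      have : 2 * r * k ^ 2 * √η = 2 * k * ε := by rw [hε]; ring
      rw [this]
      nlinarith
    calc _ ≤ 1 * (A.card : ℝ) ^ (0 : ℝ) :=
          mul_le_mul hmin1 (Real.rpow_le_rpow_of_exponent_le hN1 hneg) (by positivity) (by norm_num)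
      _ = 1 := by rw [Real.rpow_zero, one_mul]
      _ ≤ _ := hpow1
  obtain ⟨m, hm⟩ : ∃ m : ℕ, k = m + 1 := ⟨k - 1, by omega⟩
  have hm1 : 1 ≤ m := by omega
  have hkm : k - 1 = m := by omega
  have h := hmain m hm1 ε hε0 hε1
  rw [Finset.prod_const, Finset.prod_const, Finset.prod_const, Finset.card_univ, Fintype.card_fin]
    at h
  have hAk : A * A ^ m = A ^ k := by rw [hm, pow_succ']
  rw [hAk] at h
  refine le_trans ?_ h
  rw [hkm]
  have hm0 : (1 : ℝ) ≤ m := by exact_mod_cast hm1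
  have hkm' : (k : ℝ) = m + 1 := by rw [hm]; push_cast; ring
  have e1 : ((A.card : ℝ) * (A.card : ℝ) ^ m) ^ (1 - ε) = (A.card : ℝ) ^ ((k : ℝ) * (1 - ε)) := by
    rw [← pow_succ', ← Real.rpow_natCast, ← Real.rpow_mul hN0.le, ← hm]
  have e2 : (A.card : ℝ) ^ (-(η * (c₀ * m / ε) * m)) ≤ (y ^ (c₀ * m / ε)) ^ m := by
    have h1 : ((A.card : ℝ) ^ (-η)) ^ (c₀ * m / ε) ≤ y ^ (c₀ * m / ε) :=
      Real.rpow_le_rpow (by positivity) hy (by positivity)
    have h2 : (((A.card : ℝ) ^ (-η)) ^ (c₀ * m / ε)) ^ m ≤ (y ^ (c₀ * m / ε)) ^ m :=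
      pow_le_pow_left₀ (by positivity) h1 m
    refine le_trans (le_of_eq ?_) h2
    rw [← Real.rpow_mul hN0.le, ← Real.rpow_natCast, ← Real.rpow_mul hN0.le]
    congr 1
    ring
  have e3 : η * (c₀ * m / ε) * m ≤ k * ε := by
    rw [mul_div_assoc', div_mul_eq_mul_div, div_le_iff₀ hε0]
    have h1 : k * ε * ε = r ^ 2 * k ^ 3 * η := by
      rw [hε]
      have : √η * √η = η := Real.mul_self_sqrt hη.le
      calc (k : ℝ) * (r * k * √η) * (r * k * √η) = r ^ 2 * k ^ 3 * (√η * √η) := by ring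
        _ = _ := by rw [this]
    rw [h1]
    have h2 : (m : ℝ) * m ≤ k ^ 3 := by
      rw [hkm']
      nlinarith
    calc η * (c₀ * m) * m = c₀ * (m * m) * η := by ring
      _ ≤ r ^ 2 * k ^ 3 * η := by
        apply mul_le_mul_of_nonneg_right _ hη.le
        exact mul_le_mul hr h2 (by positivity) (by positivity)
  have e4 : (k : ℝ) - 2 * r * k ^ 2 * √η ≤ k * (1 - ε) + -(η * (c₀ * m / ε) * m) := by
    have : 2 * r * k ^ 2 * √η = 2 * k * ε := by rw [hε]; ring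
    rw [this]
    linarith
  rw [e1]
  calc min 1 (Real.exp (-Real.exp (C * m / ε))) * (A.card : ℝ) ^ ((k : ℝ) - 2 * r * k ^ 2 * √η) ≤
      Real.exp (-Real.exp (C * m / ε)) *
        (A.card : ℝ) ^ ((k : ℝ) * (1 - ε) + -(η * (c₀ * m / ε) * m)) :=
        mul_le_mul (min_le_right _ _) (Real.rpow_le_rpow_of_exponent_le hN1 e4) (by positivity)
          (Real.exp_pos _).le
    _ = Real.exp (-Real.exp (C * m / ε)) * (A.card : ℝ) ^ ((k : ℝ) * (1 - ε)) *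
        (A.card : ℝ) ^ (-(η * (c₀ * m / ε) * m)) := by
        rw [Real.rpow_add hN0]
        ring
    _ ≤ _ := mul_le_mul_of_nonneg_left e2 (by positivity)

/-- Few sums, many `k`-fold products. -/
theorem etaSum (k : ℕ) (hk : 1 ≤ k) (η : ℝ) (hη : 0 < η) : ∃ c : ℝ, 0 < c ∧ ∀ A P : Finset ℤ,
    (∃ a ∈ A, a ≠ 0) → P.Nonempty →
    ((A + P).card : ℝ) ≤ (A.card : ℝ) ^ η * √((A.card : ℝ) * P.card) →
    c * (A.card : ℝ) ^ ((k : ℝ) - 64 * k ^ 2 * √η) ≤ ((A ^ k).card : ℝ) := by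
  obtain ⟨c, hc, H⟩ := eta 1000 32 1000 (by norm_num) (by norm_num) (by norm_num) k hk η hη
  refine ⟨c, hc, fun A P hA hP hAP => ?_⟩
  have hAn : A.Nonempty := by
    obtain ⟨a, ha, _⟩ := hA
    exact ⟨a, ha⟩
  have hN0 : (0 : ℝ) < A.card := by exact_mod_cast hAn.card_pos
  have hS : (0 : ℝ) < (A + P).card := by exact_mod_cast (hAn.add hP).card_pos
  have h := H A (√((A.card : ℝ) * P.card) / ((A + P).card : ℝ)) hA (ratio_pos A P hAn hP) (by
    rw [le_div_iff₀ hS, Real.rpow_neg hN0.le, inv_mul_le_iff₀ (by positivity)]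
    exact hAP) (fun m hm ε hε hε1 =>
      mainProd m hm ε hε hε1 A (fun _ => A) (fun _ => P) hA (fun _ => hA) (fun _ => hP))
  norm_num at h
  exact h

/-- Many additive quadruples, many `k`-fold products. -/
theorem etaEnergy (k : ℕ) (hk : 1 ≤ k) (η : ℝ) (hη : 0 < η) : ∃ c : ℝ, 0 < c ∧ ∀ A : Finset ℤ,
    (∃ a ∈ A, a ≠ 0) → (A.card : ℝ) ^ (3 - η) ≤ (A.addEnergy A : ℕ) →
    c * (A.card : ℝ) ^ ((k : ℝ) - 300 * k ^ 2 * √η) ≤ ((A ^ k).card : ℝ) := by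
  obtain ⟨c, hc, H⟩ := eta 20000 150 2000 (by norm_num) (by norm_num) (by norm_num) k hk η hη
  refine ⟨c, hc, fun A hA hAP => ?_⟩
  have hAn : A.Nonempty := by
    obtain ⟨a, ha, _⟩ := hA
    exact ⟨a, ha⟩
  have hN0 : (0 : ℝ) < A.card := by exact_mod_cast hAn.card_pos
  have h := H A ((A.addEnergy A : ℝ) / (A.card : ℝ) ^ 3) hA
    (div_pos (energy_pos A hAn) (pow_pos hN0 3)) (by
    rw [le_div_iff₀ (pow_pos hN0 3)]
    refine le_trans (le_of_eq ?_) hAP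
    rw [← Real.rpow_natCast, ← Real.rpow_add hN0]
    congr 1
    push_cast
    ring) (fun m hm ε hε hε1 => energyProd m hm ε hε hε1 A (fun _ => A) hA (fun _ => hA))
  norm_num at h
  exact h

end Pool.Agent.H87.FS
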