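import Mathlib
import Pool.Agent.H87.FS.Main

/-!
# A large subset without popular primes, with explicit constants
-/

set_option autoImplicit false

namespace Pool.Agent.H87.FS

open Finset Real
open scoped Pointwise BigOperators

theorem struct (L : ℝ) (hL : Real.exp 9 ≤ L) (A P : Finset ℤ)
    (hA : ∃ a ∈ A, a ≠ 0) (hP : P.Nonempty) :
    ∃ B ⊆ A, (0 : ℤ) ∉ B ∧
      Real.exp (-L ^ 20) * (√((A.card : ℝ) * P.card) / ((A + P).card : ℝ)) ^ (90 * Real.log L) *
        A.card ≤ B.card ∧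
      ∀ p : ℕ, p.Prime → ∃ e : ℕ,
        L * ((B.filter fun b => b.natAbs.factorization p ≠ e).card : ℝ) ≤ B.card := by
  have hL0 : 0 < L := (Real.exp_pos 9).trans_le hL
  have hlog : 9 ≤ Real.log L := by
    rw [Real.le_log_iff_exp_le hL0]
    exact hL
  have hL512 : (512 : ℝ) ≤ L := by
    have h1 : (2 : ℝ) ≤ Real.exp 1 := by
      have := Real.add_one_le_exp (1 : ℝ)
      linarith
    have h2 : (2 : ℝ) ^ 9 ≤ Real.exp 1 ^ 9 := pow_le_pow_left₀ (by norm_num) h1 9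
    have h3 : Real.exp 1 ^ 9 = Real.exp 9 := by
      rw [← Real.exp_nat_mul]
      norm_num
    rw [h3] at h2
    norm_num at h2
    linarith
  obtain ⟨t, htd⟩ : ∃ t : ℝ, t = 1 / (90 * Real.log L) := ⟨_, rfl⟩
  have ht0 : 0 < t := by rw [htd]; positivity
  have ht1 : 1 / t = 90 * Real.log L := by rw [htd, one_div_one_div]
  have ht : t * (90 * Real.log L) ≤ 1 := by
    rw [htd]
    apply le_of_eq
    field_simp
  obtain ⟨n, hnd⟩ : ∃ n : ℕ, n = ⌈2 ^ 29 * L ^ 8⌉₊ := ⟨_, rfl⟩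
  have hn1 : 2 ^ 29 * L ^ 8 ≤ (n : ℝ) := by rw [hnd]; exact Nat.le_ceil _
  have hn2 : (n : ℝ) ≤ 2 ^ 29 * L ^ 8 + 1 := by
    have h := (Nat.ceil_lt_add_one (a := 2 ^ 29 * L ^ 8) (by positivity)).le
    rwa [← hnd] at h
  obtain ⟨B, hBA, hBn, hB0, hBc, hBv⟩ := oneSet L t hL ht0 ht n hn1 A P hA hP
  refine ⟨B, hBA, hB0, ?_, fun p hp => hBv p hp⟩
  refine le_trans ?_ hBc
  rw [ht1]
  have hAne : A.Nonempty := by
    obtain ⟨a, ha, _⟩ := hA
    exact ⟨a, ha⟩
  have hx0 := ratio_pos A P hAne hP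
  have hc : (n * Real.log 3 + Real.log 2 / 2) / t + Real.log 2 ≤ L ^ 20 := by
    rw [div_eq_mul_one_div, ht1]
    have hl2 : Real.log 2 ≤ 1 := by
      have := Real.log_two_lt_d9
      linarith
    have hl20 : 0 ≤ Real.log 2 := Real.log_nonneg (by norm_num)
    have hl3 : Real.log 3 ≤ 2 := by
      have h4 : Real.log 4 = 2 * Real.log 2 := by
        rw [show (4 : ℝ) = 2 ^ 2 by norm_num, Real.log_pow]
        norm_num
      have : Real.log 3 ≤ Real.log 4 := Real.log_le_log (by norm_num) (by norm_num)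
      linarith
    have hl30 : 0 ≤ Real.log 3 := Real.log_nonneg (by norm_num)
    have hlogL : Real.log L ≤ L := by
      have := Real.log_le_sub_one_of_pos hL0
      linarith
    have hL8 : (1 : ℝ) ≤ L ^ 8 := one_le_pow₀ (by linarith)
    have h1 : (n : ℝ) ≤ 2 ^ 30 * L ^ 8 := by nlinarith
    have hn0 : (0 : ℝ) ≤ n := Nat.cast_nonneg _
    have h2 : (n : ℝ) * Real.log 3 + Real.log 2 / 2 ≤ 2 ^ 32 * L ^ 8 := by nlinarith
    have h3 : ((n : ℝ) * Real.log 3 + Real.log 2 / 2) * (90 * Real.log L) ≤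
        2 ^ 32 * L ^ 8 * (90 * L) :=
      mul_le_mul h2 (by linarith) (by positivity) (by positivity)
    have h4 : (2 : ℝ) ^ 32 * L ^ 8 * (90 * L) + 1 ≤ 2 ^ 40 * L ^ 9 := by
      have h5 : (1 : ℝ) ≤ L ^ 9 := one_le_pow₀ (by linarith)
      have h6 : L ^ 8 * L = L ^ 9 := by ring
      calc (2 : ℝ) ^ 32 * L ^ 8 * (90 * L) + 1 = 2 ^ 32 * 90 * (L ^ 8 * L) + 1 := by ring
        _ ≤ 2 ^ 40 * L ^ 9 := by
          rw [h6]
          nlinarith
    have h7 : (2 : ℝ) ^ 40 ≤ L ^ 5 := by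
      calc (2 : ℝ) ^ 40 ≤ 512 ^ 5 := by norm_num
        _ ≤ L ^ 5 := pow_le_pow_left₀ (by norm_num) hL512 5
    calc ((n : ℝ) * Real.log 3 + Real.log 2 / 2) * (90 * Real.log L) + Real.log 2 ≤
        2 ^ 40 * L ^ 9 := by linarith
      _ ≤ L ^ 5 * L ^ 9 := mul_le_mul_of_nonneg_right h7 (by positivity)
      _ = L ^ 14 := by ring
      _ ≤ L ^ 20 := pow_le_pow_right₀ (by linarith) (by norm_num)
  have hAc : (0 : ℝ) ≤ A.card := Nat.cast_nonneg _
  calc Real.exp (-L ^ 20) * (√((A.card : ℝ) * P.card) / ((A + P).card : ℝ)) ^ (90 * Real.log L) *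
        A.card = Real.exp (-L ^ 20) * (A.card *
          (√((A.card : ℝ) * P.card) / ((A + P).card : ℝ)) ^ (90 * Real.log L)) := by ring
    _ ≤ Real.exp (-((n * Real.log 3 + Real.log 2 / 2) / t + Real.log 2)) * (A.card *
          (√((A.card : ℝ) * P.card) / ((A + P).card : ℝ)) ^ (90 * Real.log L)) := by
        apply mul_le_mul_of_nonneg_right _ (by positivity)
        apply Real.exp_le_exp.2
        linarith
    _ = _ := by ring

end Pool.Agent.H87.FS
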